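import Pool.Agent.H83.LC.Fail

/-!
Counting the exceptional gaps.
-/

namespace Pool.Agent.H83.LC

open Finset

lemma small_step {p p' : ℕ} (n : ℕ) (hn : n.Prime) (hpn : p < n)
    (hcons : ∀ r, p < r → r < p' → ¬ r.Prime) : p' ≤ n := by
  by_contra h
  exact hcons n hpn (by omega) hn

lemma small {p p' : ℕ} (hp : p.Prime) (hp32 : p < 32) (hp' : p'.Prime) (hpp : p < p')
    (hcons : ∀ r, p < r → r < p' → ¬ r.Prime) :
    Nat.lcmUpto (p' - 1) < p * Nat.lcmUpto p := by
  have key : ∀ n : ℕ, n.Prime → p < n → p' ≤ n := fun n hn hpn =>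
    small_step n hn hpn hcons
  interval_cases p
  all_goals first
    | (exfalso; revert hp; norm_num; done)
    | skip
  · have h := key 3 (by norm_num) (by norm_num)
    interval_cases p'
    all_goals first
      | (exfalso; revert hp'; norm_num; done)
      | decide
  · have h := key 5 (by norm_num) (by norm_num)
    interval_cases p'
    all_goals first
      | (exfalso; revert hp'; norm_num; done)
      | decide
  · have h := key 7 (by norm_num) (by norm_num)
    interval_cases p'
    all_goals first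
      | (exfalso; revert hp'; norm_num; done)
      | decide
  · have h := key 11 (by norm_num) (by norm_num)
    interval_cases p'
    all_goals first
      | (exfalso; revert hp'; norm_num; done)
      | decide
  · have h := key 13 (by norm_num) (by norm_num)
    interval_cases p'
    all_goals first
      | (exfalso; revert hp'; norm_num; done)
      | decide
  · have h := key 17 (by norm_num) (by norm_num)
    interval_cases p'
    all_goals first
      | (exfalso; revert hp'; norm_num; done)
      | decide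
  · have h := key 19 (by norm_num) (by norm_num)
    interval_cases p'
    all_goals first
      | (exfalso; revert hp'; norm_num; done)
      | decide
  · have h := key 23 (by norm_num) (by norm_num)
    interval_cases p'
    all_goals first
      | (exfalso; revert hp'; norm_num; done)
      | decide
  · have h := key 29 (by norm_num) (by norm_num)
    interval_cases p'
    all_goals first
      | (exfalso; revert hp'; norm_num; done)
      | decide
  · have h := key 31 (by norm_num) (by norm_num)
    interval_cases p'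
    all_goals first
      | (exfalso; revert hp'; norm_num; done)
      | decide
  · have h := key 37 (by norm_num) (by norm_num)
    interval_cases p'
    all_goals first
      | (exfalso; revert hp'; norm_num; done)
      | decide

lemma nth_cons (k : ℕ) : ∀ r, Nat.nth Nat.Prime k < r → r < Nat.nth Nat.Prime (k + 1) →
    ¬ r.Prime := by
  intro r h1 h2 hr
  have hmono := Nat.nth_strictMono Nat.infinite_setOfPred_prime
  have e : Nat.nth Nat.Prime (Nat.count Nat.Prime r) = r := Nat.nth_count hr
  rw [← e] at h1 h2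
  have h3 := hmono.lt_iff_lt.1 h1
  have h4 := hmono.lt_iff_lt.1 h2
  omega

lemma nth_le_two_mul (k : ℕ) : Nat.nth Nat.Prime (k + 1) ≤ 2 * Nat.nth Nat.Prime k := by
  have hk : (Nat.nth Nat.Prime k).Prime := Nat.prime_nth_prime k
  obtain ⟨r, hr, h1, h2⟩ := Nat.exists_prime_lt_and_le_two_mul _ hk.ne_zero
  by_contra h
  exact nth_cons k r h1 (by omega) hr

/-- The failures with a short gap. -/
def K (x : ℕ) : Set ℕ := {k | Nat.nth Nat.Prime k ≤ x ∧
  (Nat.nth Nat.Prime (k + 1) - Nat.nth Nat.Prime k) ^ 2 ≤ 16 * Nat.nth Nat.Prime k ∧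
  Nat.nth Nat.Prime k * Nat.lcmUpto (Nat.nth Nat.Prime k) ≤
    Nat.lcmUpto (Nat.nth Nat.Prime (k + 1) - 1)}

lemma K_five {x k : ℕ} (hk : k ∈ K x) : ∃ q a : ℕ, q.Prime ∧ 5 ≤ a ∧
    Nat.nth Nat.Prime k < q ^ a ∧ q ^ a < Nat.nth Nat.Prime (k + 1) := by
  obtain ⟨h1, h2, h3⟩ := hk
  have hp := Nat.prime_nth_prime k
  have hp' := Nat.prime_nth_prime (k + 1)
  have hlt : Nat.nth Nat.Prime k < Nat.nth Nat.Prime (k + 1) :=
    Nat.nth_strictMono Nat.infinite_setOfPred_prime (Nat.lt_succ_self k)
  have hge : 32 ≤ Nat.nth Nat.Prime k := by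
    by_contra h
    push Not at h
    have := small hp h hp' hlt (nth_cons k)
    omega
  exact exists_five hge hlt (nth_le_two_mul k) (nth_cons k) h2 h3

lemma K_card (x Y : ℕ) (hY : ∀ n : ℕ, n ^ 5 ≤ 2 * x → n ≤ Y) : (K x).ncard ≤ 5 * Y := by
  classical
  have hch : ∀ k : ℕ, ∃ w : ℕ × ℕ, k ∈ K x → w.1.Prime ∧ 5 ≤ w.2 ∧
      Nat.nth Nat.Prime k < w.1 ^ w.2 ∧ w.1 ^ w.2 < Nat.nth Nat.Prime (k + 1) := by
    intro k
    by_cases hk : k ∈ K x
    · obtain ⟨q, a, h⟩ := K_five hk
      exact ⟨(q, a), fun _ => h⟩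
    · exact ⟨(0, 0), fun h => absurd h hk⟩
  choose w hw using hch
  have hmono := Nat.nth_strictMono Nat.infinite_setOfPred_prime
  have hcard : (((Finset.Icc 1 Y) ×ˢ (Finset.range 5) : Finset (ℕ × ℕ)) : Set (ℕ × ℕ)).ncard =
      5 * Y := by
    rw [Set.ncard_coe_finset, Finset.card_product, Nat.card_Icc, Finset.card_range]
    omega
  rw [← hcard]
  refine Set.ncard_le_ncard_of_injOn (fun k => ((w k).1 ^ ((w k).2 / 5), (w k).2 % 5)) ?_ ?_
    (Finset.finite_toSet _)
  · intro k hk
    obtain ⟨h1, h2, h3, h4⟩ := hw k hk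
    rw [Finset.mem_coe, Finset.mem_product, Finset.mem_Icc, Finset.mem_range]
    refine ⟨⟨Nat.one_le_pow _ _ h1.pos, ?_⟩, Nat.mod_lt _ (by norm_num)⟩
    apply hY
    rw [← pow_mul]
    have h5 : (w k).1 ^ ((w k).2 / 5 * 5) ≤ (w k).1 ^ (w k).2 :=
      Nat.pow_le_pow_right h1.pos (Nat.div_mul_le_self _ _)
    have h6 := nth_le_two_mul k
    have h7 := hk.1
    omega
  · intro k hk l hl hkl
    obtain ⟨h1, h2, h3, h4⟩ := hw k hk
    obtain ⟨g1, g2, g3, g4⟩ := hw l hl
    simp only [Prod.mk.injEq] at hkl
    obtain ⟨e1, e2⟩ := hkl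
    have hq : (w k).1 = (w l).1 := by
      have hd : (w k).1 ∣ (w l).1 ^ ((w l).2 / 5) := by
        rw [← e1]
        exact dvd_pow_self _ (by omega)
      exact (Nat.prime_dvd_prime_iff_eq h1 g1).1 (h1.dvd_of_dvd_pow hd)
    have he : (w k).2 / 5 = (w l).2 / 5 := by
      rw [hq] at e1
      exact Nat.pow_right_injective g1.two_le e1
    have ha : (w k).2 = (w l).2 := by omega
    rw [hq, ha] at h3 h4
    rcases lt_trichotomy k l with h | h | h
    · have h5 : Nat.nth Nat.Prime (k + 1) ≤ Nat.nth Nat.Prime l := hmono.monotone h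
      omega
    · exact h
    · have h5 : Nat.nth Nat.Prime (l + 1) ≤ Nat.nth Nat.Prime k := hmono.monotone h
      omega

end Pool.Agent.H83.LC
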