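import Mathlib

/-!
# [H83 LC CRV W2] counting labelled windows (pure combinatorics)

For one pair `(u, v)` let `j0` be the least index of its class: every other index `j` of the class has `j * L <= x j <= x j0 + D <=
(j0 + 1) * L + D`, so `j <= j0 + 1 + D / L` and the class has at most `D / L + 2` indices; there are at most `U * V` pairs.
-/

namespace Pool.Agent.H83.LC

private theorem lb_fib {L D : ℝ} (hL : 0 < L) (hD : 0 ≤ D) (F : Finset ℕ) (x : ℕ → ℝ)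
    (hx : ∀ j ∈ F, (j : ℝ) * L ≤ x j ∧ x j ≤ ((j : ℝ) + 1) * L)
    (hs : ∀ i ∈ F, ∀ j ∈ F, |x i - x j| ≤ D) :
    (F.card : ℝ) ≤ D / L + 2 := by
  have hq : 0 ≤ D / L := div_nonneg hD hL.le
  rcases F.eq_empty_or_nonempty with h | h
  · rw [h, Finset.card_empty]
    push_cast
    linarith
  · have h0 : F.min' h ∈ F := F.min'_mem h
    obtain ⟨j0, hj0⟩ : ∃ j0, j0 = F.min' h := ⟨_, rfl⟩
    rw [← hj0] at h0
    have hsub : F ⊆ Finset.Icc j0 (j0 + ⌊1 + D / L⌋₊) := by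
      intro j hj
      have h1 : j0 ≤ j := by rw [hj0]; exact F.min'_le j hj
      rw [Finset.mem_Icc]
      refine ⟨h1, ?_⟩
      have h2 : (j : ℝ) * L ≤ ((j0 : ℝ) + 1) * L + D := by
        have e1 := (hx j hj).1
        have e2 := (hx j0 h0).2
        have e3 := (abs_le.1 (hs j hj j0 h0)).2
        linarith
      have h3 : (j : ℝ) - j0 ≤ 1 + D / L := by
        have e4 : ((j : ℝ) - j0 - 1) * L ≤ D := by nlinarith
        have e5 : (j : ℝ) - j0 - 1 ≤ D / L := by rwa [le_div_iff₀ hL]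
        linarith
      have h4 : j - j0 ≤ ⌊1 + D / L⌋₊ := by
        apply Nat.le_floor
        rw [Nat.cast_sub h1]
        exact h3
      omega
    have h5 := Finset.card_le_card hsub
    rw [Nat.card_Icc] at h5
    have h6 : F.card ≤ ⌊1 + D / L⌋₊ + 1 := by omega
    have h7 : ((⌊1 + D / L⌋₊ : ℕ) : ℝ) ≤ 1 + D / L := Nat.floor_le (by linarith)
    have h8 : (F.card : ℝ) ≤ ((⌊1 + D / L⌋₊ : ℕ) : ℝ) + 1 := by exact_mod_cast h6
    linarith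

theorem labels {L D U V : ℝ} (hL : 0 < L) (hD : 0 ≤ D) (hU : 0 ≤ U) (hV : 0 ≤ V) (J : Finset ℕ) (u v : ℕ → ℕ) (x : ℕ → ℝ)
    (hu : ∀ j ∈ J, 1 ≤ u j ∧ (u j : ℝ) ≤ U) (hv : ∀ j ∈ J, 1 ≤ v j ∧ (v j : ℝ) ≤ V)
    (hx : ∀ j ∈ J, (j : ℝ) * L ≤ x j ∧ x j ≤ ((j : ℝ) + 1) * L)
    (hs : ∀ i ∈ J, ∀ j ∈ J, u i = u j → v i = v j → |x i - x j| ≤ D) :
    (J.card : ℝ) ≤ U * V * (D / L + 2) := by
  have hq : 0 ≤ D / L := div_nonneg hD hL.le
  have hmaps : ∀ j ∈ J, (u j, v j) ∈ Finset.Icc 1 ⌊U⌋₊ ×ˢ Finset.Icc 1 ⌊V⌋₊ := by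
    intro j hj
    rw [Finset.mem_product, Finset.mem_Icc, Finset.mem_Icc]
    exact ⟨⟨(hu j hj).1, Nat.le_floor (hu j hj).2⟩, ⟨(hv j hj).1, Nat.le_floor (hv j hj).2⟩⟩
  have hcard := Finset.card_eq_sum_card_fiberwise (f := fun j => (u j, v j)) hmaps
  have hfib : ∀ b ∈ Finset.Icc 1 ⌊U⌋₊ ×ˢ Finset.Icc 1 ⌊V⌋₊,
      (((J.filter (fun j => (u j, v j) = b)).card : ℕ) : ℝ) ≤ D / L + 2 := by
    intro b _
    refine lb_fib hL hD _ x ?_ ?_
    · intro j hj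
      exact hx j (Finset.mem_filter.1 hj).1
    · intro i hi j hj
      rw [Finset.mem_filter] at hi hj
      have e : (u i, v i) = (u j, v j) := hi.2.trans hj.2.symm
      rw [Prod.mk.injEq] at e
      exact hs i hi.1 j hj.1 e.1 e.2
  calc (J.card : ℝ) = ((∑ b ∈ Finset.Icc 1 ⌊U⌋₊ ×ˢ Finset.Icc 1 ⌊V⌋₊,
          (J.filter (fun j => (u j, v j) = b)).card : ℕ) : ℝ) := by
        rw [hcard]
    _ = ∑ b ∈ Finset.Icc 1 ⌊U⌋₊ ×ˢ Finset.Icc 1 ⌊V⌋₊,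
          (((J.filter (fun j => (u j, v j) = b)).card : ℕ) : ℝ) := by
        rw [Nat.cast_sum]
    _ ≤ ∑ _b ∈ Finset.Icc 1 ⌊U⌋₊ ×ˢ Finset.Icc 1 ⌊V⌋₊, (D / L + 2) := Finset.sum_le_sum hfib
    _ = ((⌊U⌋₊ : ℕ) : ℝ) * ((⌊V⌋₊ : ℕ) : ℝ) * (D / L + 2) := by
        rw [Finset.sum_const, Finset.card_product, Nat.card_Icc, Nat.card_Icc, nsmul_eq_mul]
        push_cast
        simp
    _ ≤ U * V * (D / L + 2) := by
        apply mul_le_mul_of_nonneg_right _ (by linarith)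
        exact mul_le_mul (Nat.floor_le hU) (Nat.floor_le hV) (by positivity) hU

end Pool.Agent.H83.LC
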