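import Pool.Agent.H83.LC.CrvW1
import Pool.Agent.H83.LC.CrvW2

/-!
# [H83 LC CRV W] counting by windows (pure combinatorics; `Lab` is an abstract label)

`L = floor (R ^ 4) >= 1`; window `j`: the points `s` with `s / L = j` (natural division), so two points of a window differ by at most
`L - 1 <= R ^ 4` and lie in `[j L, (j + 1) L]`. At most `R ^ 18 / L + 2 <= 4 R ^ 14` windows meet `(R ^ 18, 2 R ^ 18]` (`L >= R ^ 4 / 2`).
Windows with at most 12 points: at most `48 R ^ 14` points. RICH windows (at least 13 points): `rich` + the label hypothesis give `u, v, ξ`;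
`labels` with `U = (6 K R ^ 3) ^ 3 / R ^ 6`, `V = (6 K R ^ 3) ^ 3`, `D = 112 K R ^ 5` bounds their number by `C R ^ 13`; `card_le` bounds the
points of each by `60 K R`.
-/

namespace Pool.Agent.H83.LC

theorem windows (K : ℝ) (hK : 1 ≤ K) : ∃ C : ℝ, 0 < C ∧ ∀ (R : ℝ) (Z : Finset ℕ) (Lab : ℕ → ℕ → ℝ → Prop), 1 ≤ R →
    (∀ s ∈ Z, R ^ 18 < (s : ℝ)) → (∀ s ∈ Z, (s : ℝ) ≤ 2 * R ^ 18) →
    (∀ a ∈ Z, ∀ b ∈ Z, ∀ c ∈ Z, a < b → b < c → R ^ 2 < (c : ℝ) - a) →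
    (∀ a ∈ Z, ∀ b ∈ Z, ∀ c ∈ Z, ∀ d ∈ Z, a < b → b < c → c < d → (d : ℝ) - a ≤ R ^ 4 →
      (b : ℝ) - a ≤ 6 * K * R ^ 3 ∨ (c : ℝ) - b ≤ 6 * K * R ^ 3 ∨ (d : ℝ) - c ≤ 6 * K * R ^ 3) →
    (∀ a ∈ Z, ∀ b ∈ Z, ∀ c ∈ Z, ∀ d ∈ Z, ∀ e ∈ Z, a < b → b < c → c < d → d < e → (e : ℝ) - a ≤ 6 * K * R ^ 3 →
      ∃ (u v : ℕ) (ξ : ℝ), Lab u v ξ ∧ 1 ≤ u ∧ (u : ℝ) ≤ (6 * K * R ^ 3) ^ 3 / R ^ 6 ∧ 1 ≤ v ∧
        (v : ℝ) ≤ (6 * K * R ^ 3) ^ 3 ∧ (a : ℝ) ≤ ξ ∧ ξ ≤ e) →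
    (∀ u v ξ ξ', Lab u v ξ → Lab u v ξ' → |ξ - ξ'| ≤ 112 * K * R ^ 5) →
    (Z.card : ℝ) ≤ C * R ^ 14 := by
  refine ⟨48 + 60 * 216 * 216 * 226 * K ^ 8, by positivity, ?_⟩
  intro R Z Lab hR hlo hhi h3 h4 hlab hdis
  have hR0 : 0 < R := by linarith
  obtain ⟨L, hL⟩ : ∃ L : ℕ, L = ⌊R ^ 4⌋₊ := ⟨_, rfl⟩
  have hR4 : 1 ≤ R ^ 4 := one_le_pow₀ hR
  have hL1 : 1 ≤ L := by
    rw [hL]
    exact Nat.le_floor (by exact_mod_cast hR4)
  have hL1r : (1 : ℝ) ≤ L := by exact_mod_cast hL1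
  have hL0r : (0 : ℝ) < L := by linarith
  have hLle : (L : ℝ) ≤ R ^ 4 := by
    rw [hL]
    exact Nat.floor_le (by positivity)
  have hLge : R ^ 4 ≤ 2 * L := by
    have h := (Nat.lt_floor_add_one (R ^ 4)).le
    rw [← hL] at h
    linarith
  -- windows
  have hwl : ∀ j s : ℕ, s / L = j → (j : ℝ) * L ≤ s ∧ (s : ℝ) ≤ ((j : ℝ) + 1) * L - 1 := by
    intro j s h
    have h1 := Nat.div_add_mod s L
    have h2 := Nat.mod_lt s (show L > 0 by omega)
    rw [h] at h1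
    have h1r : (L : ℝ) * j + (s % L : ℕ) = s := by exact_mod_cast h1
    have h2r : ((s % L : ℕ) : ℝ) + 1 ≤ L := by exact_mod_cast h2
    have h3r : (0 : ℝ) ≤ ((s % L : ℕ) : ℝ) := Nat.cast_nonneg _
    constructor <;> linarith
  have hwin : ∀ j, ∀ a ∈ Z.filter (fun s => s / L = j), ∀ b ∈ Z.filter (fun s => s / L = j),
      (b : ℝ) - a ≤ R ^ 4 := by
    intro j a ha b hb
    have h1 := hwl j a (Finset.mem_filter.1 ha).2
    have h2 := hwl j b (Finset.mem_filter.1 hb).2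
    linarith [h1.1, h2.2]
  -- the number of windows
  have hJ0 : ((Z.image (fun s => s / L)).card : ℝ) ≤ 4 * R ^ 14 := by
    have hsub : Z.image (fun s => s / L) ⊆ Finset.Icc ⌊R ^ 18 / L⌋₊ ⌊2 * R ^ 18 / L⌋₊ := by
      intro j hj
      rw [Finset.mem_image] at hj
      obtain ⟨s, hs, hsj⟩ := hj
      have h1 := hwl j s hsj
      have h2 := hlo s hs
      have h5 := hhi s hs
      rw [Finset.mem_Icc]
      constructor
      · have h6 : R ^ 18 / L < (j : ℝ) + 1 := by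
          rw [div_lt_iff₀ hL0r]
          linarith [h1.2]
        have h7 : ⌊R ^ 18 / L⌋₊ < j + 1 := by
          rw [Nat.floor_lt (by positivity)]
          push_cast
          exact h6
        omega
      · refine Nat.le_floor ?_
        rw [le_div_iff₀ hL0r]
        linarith [h1.1]
    have h1 : ((Z.image (fun s => s / L)).card : ℝ) ≤
        ((⌊2 * R ^ 18 / L⌋₊ + 1 - ⌊R ^ 18 / L⌋₊ : ℕ) : ℝ) := by
      have := Finset.card_le_card hsub
      rw [Nat.card_Icc] at this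
      exact_mod_cast this
    have h2 : ((⌊2 * R ^ 18 / L⌋₊ + 1 - ⌊R ^ 18 / L⌋₊ : ℕ) : ℝ) ≤ R ^ 18 / L + 2 := by
      have h5 : ⌊R ^ 18 / L⌋₊ ≤ ⌊2 * R ^ 18 / L⌋₊ + 1 := by
        refine (Nat.floor_le_floor ?_).trans (Nat.le_succ _)
        refine div_le_div_of_nonneg_right ?_ hL0r.le
        have : 0 ≤ R ^ 18 := by positivity
        linarith
      rw [Nat.cast_sub h5]
      push_cast
      have h6 := Nat.floor_le (show 0 ≤ 2 * R ^ 18 / L by positivity)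
      have h7 := (Nat.lt_floor_add_one (R ^ 18 / L)).le
      have h8 : 2 * R ^ 18 / L = 2 * (R ^ 18 / L) := by ring
      linarith
    have h6 : R ^ 18 / L ≤ 2 * R ^ 14 := by
      rw [div_le_iff₀ hL0r]
      have h7 : 0 ≤ R ^ 14 := by positivity
      calc R ^ 18 = R ^ 14 * R ^ 4 := by ring
        _ ≤ R ^ 14 * (2 * L) := mul_le_mul_of_nonneg_left hLge h7
        _ = 2 * R ^ 14 * L := by ring
    have h7 : (1 : ℝ) ≤ R ^ 14 := one_le_pow₀ hR
    linarith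
  -- rich windows
  obtain ⟨J1, hJ1⟩ : ∃ J1 : Finset ℕ, J1 = (Z.image (fun s => s / L)).filter
      (fun j => 13 ≤ (Z.filter (fun s => s / L = j)).card) := ⟨_, rfl⟩
  have h3' : ∀ j, ∀ a ∈ Z.filter (fun s => s / L = j), ∀ b ∈ Z.filter (fun s => s / L = j),
      ∀ c ∈ Z.filter (fun s => s / L = j), a < b → b < c → R ^ 2 < (c : ℝ) - a :=
    fun j a ha b hb c hc => h3 a (Finset.mem_filter.1 ha).1 b (Finset.mem_filter.1 hb).1 c
      (Finset.mem_filter.1 hc).1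
  have h4' : ∀ j, ∀ a ∈ Z.filter (fun s => s / L = j), ∀ b ∈ Z.filter (fun s => s / L = j),
      ∀ c ∈ Z.filter (fun s => s / L = j), ∀ d ∈ Z.filter (fun s => s / L = j),
      a < b → b < c → c < d → (d : ℝ) - a ≤ R ^ 4 →
      (b : ℝ) - a ≤ 6 * K * R ^ 3 ∨ (c : ℝ) - b ≤ 6 * K * R ^ 3 ∨ (d : ℝ) - c ≤ 6 * K * R ^ 3 :=
    fun j a ha b hb c hc d hd => h4 a (Finset.mem_filter.1 ha).1 b (Finset.mem_filter.1 hb).1 c
      (Finset.mem_filter.1 hc).1 d (Finset.mem_filter.1 hd).1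
  have hex : ∀ j ∈ J1, ∃ (u v : ℕ) (ξ : ℝ), Lab u v ξ ∧ 1 ≤ u ∧
      (u : ℝ) ≤ (6 * K * R ^ 3) ^ 3 / R ^ 6 ∧ 1 ≤ v ∧
      (v : ℝ) ≤ (6 * K * R ^ 3) ^ 3 ∧ (j : ℝ) * L ≤ ξ ∧ ξ ≤ ((j : ℝ) + 1) * L := by
    intro j hj
    rw [hJ1, Finset.mem_filter] at hj
    obtain ⟨a, ha, b, hb, c, hc, d, hd, e, he, hab, hbc, hcd, hde, hae⟩ :=
      rich (hwin j) (h4' j) hj.2
    obtain ⟨u, v, ξ, g1, g2, g3, g4, g5, g6, g7⟩ := hlab a (Finset.mem_filter.1 ha).1 b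
      (Finset.mem_filter.1 hb).1 c (Finset.mem_filter.1 hc).1 d (Finset.mem_filter.1 hd).1 e
      (Finset.mem_filter.1 he).1 hab hbc hcd hde hae
    refine ⟨u, v, ξ, g1, g2, g3, g4, g5, ?_, ?_⟩
    · exact (hwl j a (Finset.mem_filter.1 ha).2).1.trans g6
    · refine g7.trans ?_
      linarith [(hwl j e (Finset.mem_filter.1 he).2).2]
  choose! u v x hx using hex
  have hcard : (J1.card : ℝ) ≤ (6 * K * R ^ 3) ^ 3 / R ^ 6 * (6 * K * R ^ 3) ^ 3 *
      (112 * K * R ^ 5 / L + 2) := by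
    refine labels hL0r (by positivity) (by positivity) (by positivity) J1 u v x ?_ ?_ ?_ ?_
    · exact fun j hj => ⟨(hx j hj).2.1, (hx j hj).2.2.1⟩
    · exact fun j hj => ⟨(hx j hj).2.2.2.1, (hx j hj).2.2.2.2.1⟩
    · exact fun j hj => ⟨(hx j hj).2.2.2.2.2.1, (hx j hj).2.2.2.2.2.2⟩
    · intro i hi j hj h1 h2
      have g1 := (hx i hi).1
      have g2 := (hx j hj).1
      rw [h1, h2] at g1
      exact hdis _ _ _ _ g1 g2
  have hcard2 : (J1.card : ℝ) ≤ 216 * 216 * 226 * K ^ 7 * R ^ 13 := by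
    refine hcard.trans ?_
    have e1 : (6 * K * R ^ 3) ^ 3 / R ^ 6 * (6 * K * R ^ 3) ^ 3 = 216 * 216 * K ^ 6 * R ^ 12 := by
      rw [div_mul_eq_mul_div, div_eq_iff (by positivity)]
      ring
    have e2 : 112 * K * R ^ 5 / L + 2 ≤ 226 * K * R := by
      have e3 : 112 * K * R ^ 5 / L ≤ 224 * K * R := by
        rw [div_le_iff₀ hL0r]
        have h7 : 0 ≤ 112 * K * R := by positivity
        calc 112 * K * R ^ 5 = 112 * K * R * R ^ 4 := by ring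
          _ ≤ 112 * K * R * (2 * L) := mul_le_mul_of_nonneg_left hLge h7
          _ = 224 * K * R * L := by ring
      have e4 : 1 ≤ K * R := one_le_mul_of_one_le_of_one_le hK hR
      linarith
    rw [e1]
    calc 216 * 216 * K ^ 6 * R ^ 12 * (112 * K * R ^ 5 / L + 2)
        ≤ 216 * 216 * K ^ 6 * R ^ 12 * (226 * K * R) :=
          mul_le_mul_of_nonneg_left e2 (by positivity)
      _ = 216 * 216 * 226 * K ^ 7 * R ^ 13 := by ring
  -- summation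
  have hsum : (Z.card : ℝ) = ∑ j ∈ Z.image (fun s => s / L),
      ((Z.filter (fun s => s / L = j)).card : ℝ) := by
    have h1 : Z.card = ∑ j ∈ Z.image (fun s => s / L), (Z.filter (fun s => s / L = j)).card :=
      Finset.card_eq_sum_card_image (fun s => s / L) Z
    exact_mod_cast h1
  have hterm : ∀ j ∈ Z.image (fun s => s / L), ((Z.filter (fun s => s / L = j)).card : ℝ) ≤
      12 + if j ∈ J1 then 60 * K * R else 0 := by
    intro j hj
    by_cases h : 13 ≤ (Z.filter (fun s => s / L = j)).card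
    · have h1 : j ∈ J1 := by
        rw [hJ1, Finset.mem_filter]
        exact ⟨hj, h⟩
      rw [if_pos h1]
      have h2 := card_le hK hR (hwin j) (h3' j) (h4' j)
      linarith
    · have h1 : ((Z.filter (fun s => s / L = j)).card : ℝ) ≤ 12 := by
        exact_mod_cast (by omega : (Z.filter (fun s => s / L = j)).card ≤ 12)
      have h2 : (0 : ℝ) ≤ if j ∈ J1 then 60 * K * R else 0 := by
        split_ifs
        · positivity
        · exact le_rfl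
      linarith
  have hJsub : J1 ⊆ Z.image (fun s => s / L) := by
    rw [hJ1]
    exact Finset.filter_subset _ _
  have hsum2 : ∑ j ∈ Z.image (fun s => s / L), (12 + if j ∈ J1 then 60 * K * R else 0) =
      12 * ((Z.image (fun s => s / L)).card : ℝ) + (J1.card : ℝ) * (60 * K * R) := by
    rw [Finset.sum_add_distrib, Finset.sum_const, nsmul_eq_mul, ← Finset.sum_filter,
      Finset.filter_mem_eq_inter, Finset.inter_eq_right.2 hJsub, Finset.sum_const, nsmul_eq_mul]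
    ring
  rw [hsum]
  refine (Finset.sum_le_sum hterm).trans ?_
  rw [hsum2]
  have h5 : (J1.card : ℝ) * (60 * K * R) ≤ 216 * 216 * 226 * K ^ 7 * R ^ 13 * (60 * K * R) :=
    mul_le_mul_of_nonneg_right hcard2 (by positivity)
  have h6 : 216 * 216 * 226 * K ^ 7 * R ^ 13 * (60 * K * R) =
      60 * 216 * 216 * 226 * K ^ 8 * R ^ 14 := by ring
  rw [h6] at h5
  have h7 : (48 + 60 * 216 * 216 * 226 * K ^ 8) * R ^ 14 =
      12 * (4 * R ^ 14) + 60 * 216 * 216 * 226 * K ^ 8 * R ^ 14 := by ring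
  rw [h7]
  linarith

end Pool.Agent.H83.LC
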