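import Pool.Agent.H83.LC.CrvB
import Pool.Agent.H83.LC.CrvW

/-!
# [H83 LC CRV] at most `C S ^ (7/9)` integer points close to the curve `y = x ^ (5/3)` with abscissa in `(S, 2 S]`
-/

namespace Pool.Agent.H83.LC

theorem curve_big (K : ℝ) (hK : 1 ≤ K) : ∃ C : ℝ, 0 < C ∧ ∀ (R : ℝ) (Z : Finset ℕ) (r : ℕ → ℤ), 10 * K ≤ R → Near K R Z r →
    (Z.card : ℝ) ≤ C * R ^ 14 := by
  obtain ⟨C, hC, hw⟩ := windows K hK
  refine ⟨C, hC, ?_⟩
  intro R Z r hR h
  have hR1 : 1 ≤ R := by linarith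
  exact hw R Z (Lab K R) hR1 h.lo h.hi
    (fun a ha b hb c hc hab hbc => three hK hR h ha hb hc hab hbc)
    (fun a ha b hb c hc d hd hab hbc hcd hspan => four hK hR h ha hb hc hd hab hbc hcd hspan)
    (fun a ha b hb c hc d hd e he hab hbc hcd hde hspan =>
      label hK hR h ha hb hc hd he hab hbc hcd hde hspan)
    (fun u v x y hx hy => same hR1 hx hy)

theorem curve (K : ℝ) : ∃ C : ℝ, ∀ S : ℝ, 1 ≤ S → ∀ (Z : Finset ℕ) (r : ℕ → ℤ), (∀ s ∈ Z, S < (s : ℝ)) →
    (∀ s ∈ Z, (s : ℝ) ≤ 2 * S) →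
    (∀ s ∈ Z, |(r s : ℝ) - (s : ℝ) ^ (5 / 3 : ℝ)| ≤ K * S ^ (-(5 / 6) : ℝ)) →
    (Z.card : ℝ) ≤ C * S ^ (7 / 9 : ℝ) := by
  set K' : ℝ := max K 1 with hK'
  have hK1 : 1 ≤ K' := le_max_right _ _
  obtain ⟨C, hC, hbig⟩ := curve_big K' hK1
  refine ⟨max C (3 * (10 * K') ^ 18), ?_⟩
  intro S hS Z r hlo hhi hnear
  have hS0 : 0 < S := by linarith
  set R : ℝ := S ^ (1 / 18 : ℝ) with hR
  have hRp : 0 < R := Real.rpow_pos_of_pos hS0 _
  have e18 : R ^ 18 = S := by
    rw [hR, ← Real.rpow_natCast, ← Real.rpow_mul hS0.le]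
    norm_num
  have e14 : R ^ 14 = S ^ (7 / 9 : ℝ) := by
    rw [hR, ← Real.rpow_natCast, ← Real.rpow_mul hS0.le]
    norm_num
  have e15 : 1 / R ^ 15 = S ^ (-(5 / 6) : ℝ) := by
    rw [hR, ← Real.rpow_natCast, ← Real.rpow_mul hS0.le, Real.rpow_neg hS0.le, one_div]
    norm_num
  have hS79 : 1 ≤ S ^ (7 / 9 : ℝ) := Real.one_le_rpow hS (by norm_num)
  by_cases hb : 10 * K' ≤ R
  · have hn : Near K' R Z r := by
      refine ⟨?_, ?_, ?_⟩
      · intro s hs
        rw [e18]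
        exact hlo s hs
      · intro s hs
        rw [e18]
        exact hhi s hs
      · intro s hs
        have h1 := hnear s hs
        have h2 : K' / R ^ 15 = K' * S ^ (-(5 / 6) : ℝ) := by
          rw [← e15]
          ring
        rw [h2]
        unfold cf
        refine h1.trans ?_
        exact mul_le_mul_of_nonneg_right (le_max_left _ _) (Real.rpow_nonneg hS0.le _)
    have h3 := hbig R Z r hb hn
    rw [e14] at h3
    refine h3.trans ?_
    exact mul_le_mul_of_nonneg_right (le_max_left _ _) (by linarith)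
  · push Not at hb
    have h1 : S ≤ (10 * K') ^ 18 := by
      rw [← e18]
      exact pow_le_pow_left₀ hRp.le hb.le 18
    have h2 : Z ⊆ Finset.range (⌊2 * S⌋₊ + 1) := by
      intro s hs
      rw [Finset.mem_range]
      exact Nat.lt_succ_of_le (Nat.le_floor (hhi s hs))
    have h3 : (Z.card : ℝ) ≤ 2 * S + 1 := by
      have h4 := Finset.card_le_card h2
      rw [Finset.card_range] at h4
      have h5 : (Z.card : ℝ) ≤ (⌊2 * S⌋₊ : ℝ) + 1 := by exact_mod_cast h4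
      have h6 := Nat.floor_le (by linarith : 0 ≤ 2 * S)
      linarith
    calc (Z.card : ℝ) ≤ 3 * S := by linarith
      _ ≤ 3 * (10 * K') ^ 18 := by linarith
      _ ≤ max C (3 * (10 * K') ^ 18) := le_max_right _ _
      _ = max C (3 * (10 * K') ^ 18) * 1 := (mul_one _).symm
      _ ≤ max C (3 * (10 * K') ^ 18) * S ^ (7 / 9 : ℝ) := by
          apply mul_le_mul_of_nonneg_left hS79
          exact hC.le.trans (le_max_left _ _)

end Pool.Agent.H83.LC
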