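import Pool.Agent.H83.LC.CrvD

/-!
# [H83 LC CRV C3] the determinant of three points of the curve

Rolle twice for `g x = D x * V x3 - D x3 * V x`, where `D x = d3 x1 x2 x (cf x1) (cf x2) (cf x)`, `V x = v3 x1 x2 x`;
`g` vanishes at `x1, x2, x3` and `g'' = (x2 - x1) * (g2 x * V x3 - 2 * D x3)`. (`exists_hasDerivAt_eq_zero`, `Real.hasDerivAt_rpow_const`.)
-/

namespace Pool.Agent.H83.LC

theorem cf_hasDerivAt {x : ℝ} (hx : 0 < x) : HasDerivAt cf (5 / 3 * x ^ (2 / 3 : ℝ)) x := by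
  have h := Real.hasDerivAt_rpow_const (x := x) (p := 5 / 3) (Or.inl hx.ne')
  have e : (5 / 3 - 1 : ℝ) = 2 / 3 := by norm_num
  rw [e] at h
  exact h

theorem c1_hasDerivAt {x : ℝ} (hx : 0 < x) :
    HasDerivAt (fun x : ℝ => 5 / 3 * x ^ (2 / 3 : ℝ)) (g2 x) x := by
  have h := (Real.hasDerivAt_rpow_const (x := x) (p := 2 / 3) (Or.inl hx.ne')).const_mul (5 / 3 : ℝ)
  have e : (2 / 3 - 1 : ℝ) = -(1 / 3) := by norm_num
  rw [e] at h
  have e2 : (5 / 3 : ℝ) * (2 / 3 * x ^ (-(1 / 3) : ℝ)) = g2 x := by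
    unfold g2
    ring
  rw [e2] at h
  exact h

theorem main3 {x1 x2 x3 : ℝ} (h0 : 0 < x1) (h12 : x1 < x2) (h23 : x2 < x3) :
    ∃ ξ : ℝ, x1 < ξ ∧ ξ < x3 ∧ d3 x1 x2 x3 (cf x1) (cf x2) (cf x3) = v3 x1 x2 x3 * (g2 ξ / 2) := by
  obtain ⟨V, hV⟩ : ∃ V, V = v3 x1 x2 x3 := ⟨_, rfl⟩
  obtain ⟨D, hD⟩ : ∃ D, D = d3 x1 x2 x3 (cf x1) (cf x2) (cf x3) := ⟨_, rfl⟩
  let g : ℝ → ℝ := fun x => ((x2 - x1) * (cf x - cf x1) - (x - x1) * (cf x2 - cf x1)) * V -
    D * ((x2 - x1) * (x - x1) * (x - x2))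
  let g' : ℝ → ℝ := fun x => ((x2 - x1) * (5 / 3 * x ^ (2 / 3 : ℝ)) - (cf x2 - cf x1)) * V -
    D * ((x2 - x1) * (2 * x - x1 - x2))
  let g'' : ℝ → ℝ := fun x => (x2 - x1) * g2 x * V - D * ((x2 - x1) * 2)
  have hg : ∀ x, 0 < x → HasDerivAt g (g' x) x := by
    intro x hx
    have h1 := ((((cf_hasDerivAt hx).sub_const (cf x1)).const_mul (x2 - x1)).sub
      (((hasDerivAt_id x).sub_const x1).mul_const (cf x2 - cf x1))).mul_const V
    have h2 := ((((hasDerivAt_id x).sub_const x1).const_mul (x2 - x1)).mul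
      ((hasDerivAt_id x).sub_const x2)).const_mul D
    have h3 := h1.sub h2
    refine h3.congr_deriv ?_
    simp only [g', id]
    ring
  have hg' : ∀ x, 0 < x → HasDerivAt g' (g'' x) x := by
    intro x hx
    have h1 := (((c1_hasDerivAt hx).const_mul (x2 - x1)).sub_const (cf x2 - cf x1)).mul_const V
    have h2 := (((((hasDerivAt_id x).const_mul 2).sub_const x1).sub_const x2).const_mul
      (x2 - x1)).const_mul D
    have h3 := h1.sub h2
    refine h3.congr_deriv ?_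
    simp only [g'']
    ring
  have g1 : g x1 = 0 := by simp only [g]; ring
  have g22 : g x2 = 0 := by simp only [g]; ring
  have g3 : g x3 = 0 := by
    simp only [g, hV, hD, v3, d3]
    ring
  obtain ⟨a, ⟨ha1, ha2⟩, ha⟩ := exists_hasDerivAt_eq_zero (f := g) (f' := g') h12
    (fun x hx => (hg x (h0.trans_le hx.1)).continuousAt.continuousWithinAt) (g1.trans g22.symm)
    fun x hx => hg x (h0.trans hx.1)
  obtain ⟨b, ⟨hb1, hb2⟩, hb⟩ := exists_hasDerivAt_eq_zero (f := g) (f' := g') h23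
    (fun x hx => (hg x ((h0.trans h12).trans_le hx.1)).continuousAt.continuousWithinAt)
    (g22.trans g3.symm) fun x hx => hg x ((h0.trans h12).trans hx.1)
  have hab : a < b := ha2.trans hb1
  have ha0 : 0 < a := h0.trans ha1
  obtain ⟨ξ, ⟨hξ1, hξ2⟩, hξ⟩ := exists_hasDerivAt_eq_zero (f := g') (f' := g'') hab
    (fun x hx => (hg' x (ha0.trans_le hx.1)).continuousAt.continuousWithinAt) (ha.trans hb.symm)
    fun x hx => hg' x (ha0.trans hx.1)
  refine ⟨ξ, ha1.trans hξ1, hξ2.trans hb2, ?_⟩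
  rw [← hD, ← hV]
  simp only [g''] at hξ
  have hne : x2 - x1 ≠ 0 := (sub_pos.2 h12).ne'
  have h4 : (x2 - x1) * (g2 ξ * V - 2 * D) = 0 := by linear_combination hξ
  rcases mul_eq_zero.1 h4 with h5 | h5
  · exact absurd h5 hne
  · linear_combination -h5 / 2

end Pool.Agent.H83.LC
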