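import Pool.Agent.H83.LC.CrvD

/-!
# [H83 LC CRV C4] the determinant of four points of the curve

Rolle three times for `g x = D x * W x4 - D x4 * W x`, `D x = d4 x1 x2 x3 x (cf x1) (cf x2) (cf x3) (cf x)`, `W x = v4 x1 x2 x3 x`;
`g` vanishes at `x1, x2, x3, x4`; `g''' = v3 x1 x2 x3 * (g3 x * W x4 - 6 * D x4)` with `g3 x = -(10/27) * x ^ (-4/3)` (the third
derivative of `cf`), so `-D x4 = W x4 * (10/162 * ξ ^ (-4/3))` for some `ξ` between, and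
`1/42 / R ^ 24 <= 10/162 * ξ ^ (-4/3) <= 5/81 / R ^ 24` as `R ^ 18 <= ξ <= 2 R ^ 18` and `2 ^ (-4/3) > 0.39`.
(`exists_hasDerivAt_eq_zero`, `Real.hasDerivAt_rpow_const`.)
-/

namespace Pool.Agent.H83.LC

private theorem rolle {f f' : ℝ → ℝ} {a b : ℝ} (ha : 0 < a) (hab : a < b)
    (hf : ∀ x, 0 < x → HasDerivAt f (f' x) x) (h1 : f a = 0) (h2 : f b = 0) :
    ∃ c, a < c ∧ c < b ∧ f' c = 0 := by
  obtain ⟨c, hc, h⟩ := exists_hasDerivAt_eq_zero (f := f) (f' := f') hab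
    (fun x hx => (hf x (lt_of_lt_of_le ha hx.1)).continuousAt.continuousWithinAt)
    (h1.trans h2.symm) (fun x hx => hf x (lt_trans ha hx.1))
  exact ⟨c, hc.1, hc.2, h⟩

private theorem rolle3 {α a0 a1 a2 a3 x1 x2 x3 x4 : ℝ} (h0 : 0 < x1) (h12 : x1 < x2)
    (h23 : x2 < x3) (h34 : x3 < x4)
    (e1 : α * x1 ^ (5 / 3 : ℝ) + a0 + a1 * x1 + a2 * x1 ^ 2 + a3 * x1 ^ 3 = 0)
    (e2 : α * x2 ^ (5 / 3 : ℝ) + a0 + a1 * x2 + a2 * x2 ^ 2 + a3 * x2 ^ 3 = 0)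
    (e3 : α * x3 ^ (5 / 3 : ℝ) + a0 + a1 * x3 + a2 * x3 ^ 2 + a3 * x3 ^ 3 = 0)
    (e4 : α * x4 ^ (5 / 3 : ℝ) + a0 + a1 * x4 + a2 * x4 ^ 2 + a3 * x4 ^ 3 = 0) :
    ∃ ξ, x1 < ξ ∧ ξ < x4 ∧ α * (-(10 / 27) * ξ ^ (-(4 / 3) : ℝ)) + 6 * a3 = 0 := by
  have hp : ∀ (p : ℝ) (x : ℝ), 0 < x → HasDerivAt (fun x : ℝ => x ^ p) (p * x ^ (p - 1)) x :=
    fun p x hx => Real.hasDerivAt_rpow_const (Or.inl hx.ne')
  have d0 : ∀ x : ℝ, 0 < x → HasDerivAt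
      (fun x : ℝ => α * x ^ (5 / 3 : ℝ) + a0 + a1 * x + a2 * x ^ 2 + a3 * x ^ 3)
      (α * (5 / 3 * x ^ (2 / 3 : ℝ)) + a1 + 2 * a2 * x + 3 * a3 * x ^ 2) x := by
    intro x hx
    have h := ((((hp (5 / 3) x hx).const_mul α).add_const a0).add
      ((hasDerivAt_id x).const_mul a1)).add ((hasDerivAt_pow 2 x).const_mul a2) |>.add
      ((hasDerivAt_pow 3 x).const_mul a3)
    refine h.congr_deriv ?_
    have e : (5 / 3 : ℝ) - 1 = 2 / 3 := by norm_num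
    rw [e]
    push_cast
    ring
  have d1 : ∀ x : ℝ, 0 < x → HasDerivAt
      (fun x : ℝ => α * (5 / 3 * x ^ (2 / 3 : ℝ)) + a1 + 2 * a2 * x + 3 * a3 * x ^ 2)
      (α * (10 / 9 * x ^ (-(1 / 3) : ℝ)) + 2 * a2 + 6 * a3 * x) x := by
    intro x hx
    have h := (((((hp (2 / 3) x hx).const_mul (5 / 3)).const_mul α).add_const a1).add
      ((hasDerivAt_id x).const_mul (2 * a2))).add ((hasDerivAt_pow 2 x).const_mul (3 * a3))
    refine h.congr_deriv ?_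
    have e : (2 / 3 : ℝ) - 1 = -(1 / 3) := by norm_num
    rw [e]
    push_cast
    ring
  have d2 : ∀ x : ℝ, 0 < x → HasDerivAt
      (fun x : ℝ => α * (10 / 9 * x ^ (-(1 / 3) : ℝ)) + 2 * a2 + 6 * a3 * x)
      (α * (-(10 / 27) * x ^ (-(4 / 3) : ℝ)) + 6 * a3) x := by
    intro x hx
    have h := ((((hp (-(1 / 3)) x hx).const_mul (10 / 9)).const_mul α).add_const (2 * a2)).add
      ((hasDerivAt_id x).const_mul (6 * a3))
    refine h.congr_deriv ?_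
    have e : (-(1 / 3) : ℝ) - 1 = -(4 / 3) := by norm_num
    rw [e]
    ring
  obtain ⟨u1, hu1, hu1', f1⟩ := rolle h0 h12 d0 e1 e2
  obtain ⟨u2, hu2, hu2', f2⟩ := rolle (by linarith) h23 d0 e2 e3
  obtain ⟨u3, hu3, hu3', f3⟩ := rolle (by linarith) h34 d0 e3 e4
  obtain ⟨w1, hw1, hw1', k1⟩ := rolle (by linarith) (by linarith : u1 < u2) d1 f1 f2
  obtain ⟨w2, hw2, hw2', k2⟩ := rolle (by linarith) (by linarith : u2 < u3) d1 f2 f3
  obtain ⟨ξ, hξ, hξ', h⟩ := rolle (by linarith) (by linarith : w1 < w2) d2 k1 k2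
  exact ⟨ξ, by linarith, by linarith, h⟩

theorem main4 {R x1 x2 x3 x4 : ℝ} (hR : 1 ≤ R) (h0 : R ^ 18 ≤ x1) (h12 : x1 < x2) (h23 : x2 < x3) (h34 : x3 < x4)
    (h4 : x4 ≤ 2 * R ^ 18) :
    v4 x1 x2 x3 x4 / (42 * R ^ 24) ≤ -d4 x1 x2 x3 x4 (cf x1) (cf x2) (cf x3) (cf x4) ∧
      -d4 x1 x2 x3 x4 (cf x1) (cf x2) (cf x3) (cf x4) ≤ v4 x1 x2 x3 x4 * (5 / 81) / R ^ 24 := by
  have hR0 : 0 < R := by linarith
  have hx1 : 0 < x1 := lt_of_lt_of_le (by positivity) h0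
  have hV : 0 < v3 x1 x2 x3 := by
    unfold v3
    apply mul_pos (mul_pos _ _) <;> linarith
  have hW : 0 < v4 x1 x2 x3 x4 := by
    unfold v4
    apply mul_pos hV
    apply mul_pos (mul_pos _ _) <;> linarith
  obtain ⟨w, hw⟩ : ∃ w, w = v4 x1 x2 x3 x4 := ⟨_, rfl⟩
  obtain ⟨d, hd⟩ : ∃ d, d = d4 x1 x2 x3 x4 (cf x1) (cf x2) (cf x3) (cf x4) := ⟨_, rfl⟩
  obtain ⟨V, hVd⟩ : ∃ V, V = v3 x1 x2 x3 := ⟨_, rfl⟩
  have hc : ∀ x : ℝ, x ^ (5 / 3 : ℝ) = cf x := fun _ => rfl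
  obtain ⟨ξ, hξ1, hξ4, hξ⟩ := rolle3 (α := w * V)
    (a0 := w * (-cf x3 * (x2 - x1) * x1 * x2 + cf x2 * (x3 - x1) * x1 * x3
      - cf x1 * (x3 - x2) * x2 * x3) + d * V * (x1 * x2 * x3))
    (a1 := w * (cf x3 * (x2 - x1) * (x1 + x2) - cf x2 * (x3 - x1) * (x1 + x3)
      + cf x1 * (x3 - x2) * (x2 + x3)) - d * V * (x1 * x2 + x1 * x3 + x2 * x3))
    (a2 := w * (-cf x3 * (x2 - x1) + cf x2 * (x3 - x1) - cf x1 * (x3 - x2))
      + d * V * (x1 + x2 + x3))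
    (a3 := -(d * V)) hx1 h12 h23 h34
    (by rw [hc, hVd]; unfold v3; ring) (by rw [hc, hVd]; unfold v3; ring)
    (by rw [hc, hVd]; unfold v3; ring)
    (by
      rw [hc]
      have h1 : w = V * ((x4 - x1) * (x4 - x2) * (x4 - x3)) := by rw [hw, hVd]; rfl
      have h2 : d = cf x4 * V - cf x3 * ((x2 - x1) * (x4 - x1) * (x4 - x2))
          + cf x2 * ((x3 - x1) * (x4 - x1) * (x4 - x3))
          - cf x1 * ((x3 - x2) * (x4 - x2) * (x4 - x3)) := by rw [hd, hVd]; rfl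
      linear_combination d * h1 - w * h2)
  rw [← hw, ← hd]
  rw [← hw] at hW
  rw [← hVd] at hV
  have hξ0 : 0 < ξ := by linarith
  have ht : ξ ^ (-(4 / 3) : ℝ) = (ξ ^ (4 / 3 : ℝ))⁻¹ := Real.rpow_neg hξ0.le _
  rw [ht] at hξ
  obtain ⟨t, htt⟩ : ∃ t, t = ξ ^ (4 / 3 : ℝ) := ⟨_, rfl⟩
  rw [← htt] at hξ
  have ht0 : 0 < t := by rw [htt]; exact Real.rpow_pos_of_pos hξ0 _
  have hmain : -d = w * (5 / 81) / t := by
    have h1 : V * (w * (-(10 / 27) * t⁻¹) - 6 * d) = 0 := by linear_combination hξ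
    have h2 := (mul_eq_zero.1 h1).resolve_left hV.ne'
    field_simp at h2 ⊢
    linarith
  have hpow : (R ^ 18 : ℝ) ^ (4 / 3 : ℝ) = R ^ 24 := by
    rw [← Real.rpow_natCast R 18, ← Real.rpow_mul hR0.le, ← Real.rpow_natCast R 24]
    norm_num
  have htlo : R ^ 24 ≤ t := by
    rw [htt, ← hpow]
    exact Real.rpow_le_rpow (by positivity) (by linarith) (by norm_num)
  have h2pow : (2 : ℝ) ^ (4 / 3 : ℝ) ≤ 324 / 125 := by
    obtain ⟨u, hu⟩ : ∃ u, u = (2 : ℝ) ^ (4 / 3 : ℝ) := ⟨_, rfl⟩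
    have hu0 : 0 < u := by rw [hu]; positivity
    have hu3 : u ^ 3 = 16 := by
      rw [hu, ← Real.rpow_natCast, ← Real.rpow_mul (by norm_num)]
      norm_num
    rw [← hu]
    by_contra hcon
    rw [not_le] at hcon
    have h1 : (324 / 125 : ℝ) ^ 3 < u ^ 3 :=
      pow_lt_pow_left₀ hcon (by norm_num) (by norm_num)
    rw [hu3] at h1
    norm_num at h1
  have hthi : t ≤ (324 / 125) * R ^ 24 := by
    have h1 : t ≤ (2 * R ^ 18) ^ (4 / 3 : ℝ) := by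
      rw [htt]
      exact Real.rpow_le_rpow hξ0.le (by linarith) (by norm_num)
    rw [Real.mul_rpow (by norm_num) (by positivity), hpow] at h1
    exact h1.trans (mul_le_mul_of_nonneg_right h2pow (by positivity))
  have hR24 : (0 : ℝ) < R ^ 24 := by positivity
  rw [hmain]
  constructor
  · rw [div_le_div_iff₀ (by positivity) ht0]
    nlinarith [mul_le_mul_of_nonneg_left hthi hW.le]
  · exact div_le_div_of_nonneg_left (by positivity) hR24 htlo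

end Pool.Agent.H83.LC
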