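import Pool.Agent.H83.LC.CrvC1
import Pool.Agent.H83.LC.CrvC3
import Pool.Agent.H83.LC.CrvC4

/-!
# [H83 LC CRV A] the arithmetic of the determinants
-/

namespace Pool.Agent.H83.LC

lemma v3_nonneg {x1 x2 x3 : ℝ} (h12 : x1 ≤ x2) (h23 : x2 ≤ x3) : 0 ≤ v3 x1 x2 x3 := by
  unfold v3
  exact mul_nonneg (mul_nonneg (by linarith) (by linarith)) (by linarith)

lemma err3 {e x1 x2 x3 y1 y2 y3 z1 z2 z3 : ℝ} (h12 : x1 ≤ x2) (h23 : x2 ≤ x3)
    (h1 : |y1 - z1| ≤ e) (h2 : |y2 - z2| ≤ e) (h3 : |y3 - z3| ≤ e) :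
    |d3 x1 x2 x3 y1 y2 y3 - d3 x1 x2 x3 z1 z2 z3| ≤ 2 * (x3 - x1) * e := by
  have e0 : d3 x1 x2 x3 y1 y2 y3 - d3 x1 x2 x3 z1 z2 z3 =
      (x2 - x1) * (y3 - z3) - (x3 - x1) * (y2 - z2) + (x3 - x2) * (y1 - z1) := by
    unfold d3
    ring
  rw [abs_le] at h1 h2 h3 ⊢
  rw [e0]
  have a1 : 0 ≤ x2 - x1 := by linarith
  have a2 : 0 ≤ x3 - x1 := by linarith
  have a3 : 0 ≤ x3 - x2 := by linarith
  constructor
  · nlinarith [mul_le_mul_of_nonneg_left h1.1 a3, mul_le_mul_of_nonneg_left h2.2 a2,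
      mul_le_mul_of_nonneg_left h3.1 a1]
  · nlinarith [mul_le_mul_of_nonneg_left h1.2 a3, mul_le_mul_of_nonneg_left h2.1 a2,
      mul_le_mul_of_nonneg_left h3.2 a1]

lemma err4 {e x1 x2 x3 x4 y1 y2 y3 y4 z1 z2 z3 z4 : ℝ} (h12 : x1 ≤ x2) (h23 : x2 ≤ x3) (h34 : x3 ≤ x4)
    (h1 : |y1 - z1| ≤ e) (h2 : |y2 - z2| ≤ e) (h3 : |y3 - z3| ≤ e) (h4 : |y4 - z4| ≤ e) :
    |d4 x1 x2 x3 x4 y1 y2 y3 y4 - d4 x1 x2 x3 x4 z1 z2 z3 z4| ≤
      e * (v3 x1 x2 x3 + v3 x1 x2 x4 + v3 x1 x3 x4 + v3 x2 x3 x4) := by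
  have e0 : d4 x1 x2 x3 x4 y1 y2 y3 y4 - d4 x1 x2 x3 x4 z1 z2 z3 z4 =
      v3 x1 x2 x3 * (y4 - z4) - v3 x1 x2 x4 * (y3 - z3) + v3 x1 x3 x4 * (y2 - z2) -
        v3 x2 x3 x4 * (y1 - z1) := by
    unfold d4
    ring
  rw [abs_le] at h1 h2 h3 h4 ⊢
  rw [e0]
  have a1 := v3_nonneg h12 h23
  have a2 := v3_nonneg h12 (h23.trans h34)
  have a3 := v3_nonneg (h12.trans h23) h34
  have a4 := v3_nonneg h23 h34
  constructor
  · nlinarith [mul_le_mul_of_nonneg_left h4.1 a1, mul_le_mul_of_nonneg_left h3.2 a2,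
      mul_le_mul_of_nonneg_left h2.1 a3, mul_le_mul_of_nonneg_left h1.2 a4]
  · nlinarith [mul_le_mul_of_nonneg_left h4.2 a1, mul_le_mul_of_nonneg_left h3.1 a2,
      mul_le_mul_of_nonneg_left h2.2 a3, mul_le_mul_of_nonneg_left h1.1 a4]

lemma int3 (a b c : ℕ) (r : ℕ → ℤ) : ∃ n : ℤ, d3 a b c (r a) (r b) (r c) = n := by
  refine ⟨((b : ℤ) - a) * (r c - r a) - ((c : ℤ) - a) * (r b - r a), ?_⟩
  unfold d3
  push_cast
  ring

lemma int4 (a b c d : ℕ) (r : ℕ → ℤ) : ∃ n : ℤ, d4 a b c d (r a) (r b) (r c) (r d) = n := by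
  refine ⟨r d * (((b : ℤ) - a) * (c - a) * (c - b)) - r c * (((b : ℤ) - a) * (d - a) * (d - b)) +
    r b * (((c : ℤ) - a) * (d - a) * (d - c)) - r a * (((c : ℤ) - b) * (d - b) * (d - c)), ?_⟩
  unfold d4 v3
  push_cast
  ring

/-- the basic facts for three points -/
lemma basic3 {K R : ℝ} {Z : Finset ℕ} {r : ℕ → ℤ} (hK : 1 ≤ K) (hR : 10 * K ≤ R) (h : Near K R Z r)
    {a b c : ℕ} (ha : a ∈ Z) (hb : b ∈ Z) (hc : c ∈ Z) (hab : a < b) (hbc : b < c) :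
    ∃ ξ : ℝ, (a : ℝ) < ξ ∧ ξ < c ∧
      |d3 a b c (r a) (r b) (r c) - v3 a b c * (g2 ξ / 2)| ≤ 2 * ((c : ℝ) - a) * (K / R ^ 15) := by
  have hR1 : 1 ≤ R := by linarith
  have h1 : (a : ℝ) < b := by exact_mod_cast hab
  have h2 : (b : ℝ) < c := by exact_mod_cast hbc
  have h0 : (0 : ℝ) < a := lt_of_le_of_lt (by positivity) (h.lo a ha)
  obtain ⟨ξ, g1, g3, g4⟩ := main3 h0 h1 h2
  refine ⟨ξ, g1, g3, ?_⟩
  rw [← g4]
  exact err3 h1.le h2.le (h.near a ha) (h.near b hb) (h.near c hc)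

lemma step_cast {a b : ℕ} (hab : a < b) : (1 : ℝ) ≤ (b : ℝ) - a := by
  have : ((a + 1 : ℕ) : ℝ) ≤ b := by exact_mod_cast hab
  push_cast at this
  linarith

/-- the determinant of three points is positive -/
lemma pos3 {K R : ℝ} {Z : Finset ℕ} {r : ℕ → ℤ} (hK : 1 ≤ K) (hR : 10 * K ≤ R) (h : Near K R Z r)
    {a b c : ℕ} (ha : a ∈ Z) (hb : b ∈ Z) (hc : c ∈ Z) (hab : a < b) (hbc : b < c) :
    (1 : ℝ) ≤ d3 a b c (r a) (r b) (r c) := by
  obtain ⟨ξ, h1, h2, h3⟩ := basic3 hK hR h ha hb hc hab hbc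
  have hR1 : 1 ≤ R := by linarith
  have hRp : 0 < R := by linarith
  have g1 := g2_lo hR1 ((h.lo a ha).le.trans h1.le) (h2.le.trans (h.hi c hc))
  obtain ⟨n, hn⟩ := int3 a b c r
  rw [hn] at h3 ⊢
  have s1 := step_cast hab
  have s2 := step_cast hbc
  set p : ℝ := (b : ℝ) - a with hp
  set q : ℝ := (c : ℝ) - b with hq
  have e1 : (c : ℝ) - a = p + q := by rw [hp, hq]; ring
  have e2 : v3 a b c = p * (p + q) * q := by
    unfold v3
    rw [← hp, ← hq, e1]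
  rw [e1, e2] at h3
  have e3 : (p + q) / 2 ≤ p * q := by nlinarith [mul_nonneg (sub_nonneg.2 s1) (sub_nonneg.2 s2)]
  have e4 : (p + q) * ((p + q) / 2) ≤ p * (p + q) * q := by
    have := mul_le_mul_of_nonneg_left e3 (by linarith : 0 ≤ p + q)
    linarith
  -- main term
  have e5 : (p + q) * ((p + q) / 2) * (4 / 5 / R ^ 6 / 2) ≤ p * (p + q) * q * (g2 ξ / 2) := by
    apply mul_le_mul e4 (by linarith) (by positivity)
    exact le_trans (by positivity) e4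
  have e6 : 2 * (p + q) * (K / R ^ 15) < (p + q) * ((p + q) / 2) * (4 / 5 / R ^ 6 / 2) := by
    have e7 : K / R ^ 15 ≤ 1 / 10 / R ^ 6 := by
      rw [div_le_div_iff₀ (by positivity) (by positivity)]
      have e8 : (1 : ℝ) ≤ R ^ 8 := one_le_pow₀ hR1
      have e9 : K ≤ 1 / 10 * R * R ^ 8 := by nlinarith
      calc K * R ^ 6 ≤ 1 / 10 * R * R ^ 8 * R ^ 6 := by
            exact mul_le_mul_of_nonneg_right e9 (by positivity)
        _ = 1 / 10 * R ^ 15 := by ring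
    have e10 : 0 < 1 / R ^ 6 := by positivity
    have e11 : (1 : ℝ) / 10 / R ^ 6 = 1 / 10 * (1 / R ^ 6) := by ring
    have e12 : (4 : ℝ) / 5 / R ^ 6 / 2 = 2 / 5 * (1 / R ^ 6) := by ring
    rw [e12]
    rw [e11] at e7
    have e13 : 2 * (p + q) * (K / R ^ 15) ≤ 2 * (p + q) * (1 / 10 * (1 / R ^ 6)) :=
      mul_le_mul_of_nonneg_left e7 (by linarith)
    have e14 : (p + q) * (1 / R ^ 6) * (1 / 5) < (p + q) * (1 / R ^ 6) * ((p + q) / 5) := by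
      apply mul_lt_mul_of_pos_left (by linarith)
      positivity
    linarith
  have e15 : (0 : ℝ) < n := by
    have := (abs_le.1 h3).1
    linarith
  have e16 : (0 : ℤ) < n := by exact_mod_cast e15
  exact_mod_cast e16

theorem three {K R : ℝ} {Z : Finset ℕ} {r : ℕ → ℤ} (hK : 1 ≤ K) (hR : 10 * K ≤ R) (h : Near K R Z r)
    {a b c : ℕ} (ha : a ∈ Z) (hb : b ∈ Z) (hc : c ∈ Z) (hab : a < b) (hbc : b < c) :
    R ^ 2 < (c : ℝ) - a := by
  by_contra hcon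
  push Not at hcon
  obtain ⟨ξ, h1, h2, h3⟩ := basic3 hK hR h ha hb hc hab hbc
  have hpos := pos3 hK hR h ha hb hc hab hbc
  have hR1 : 1 ≤ R := by linarith
  have hRp : 0 < R := by linarith
  have g1 := g2_hi hR1 ((h.lo a ha).le.trans h1.le)
  have s1 := step_cast hab
  have s2 := step_cast hbc
  set p : ℝ := (b : ℝ) - a with hp
  set q : ℝ := (c : ℝ) - b with hq
  have e1 : (c : ℝ) - a = p + q := by rw [hp, hq]; ring
  have e2 : v3 a b c = p * (p + q) * q := by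
    unfold v3
    rw [← hp, ← hq, e1]
  rw [e1, e2] at h3
  rw [e1] at hcon
  have e3 : p * (p + q) * q ≤ R ^ 6 := by
    have t1 : p ≤ R ^ 2 := by linarith
    have t2 : q ≤ R ^ 2 := by linarith
    calc p * (p + q) * q ≤ R ^ 2 * R ^ 2 * R ^ 2 := by
          apply mul_le_mul (mul_le_mul t1 hcon (by linarith) (by positivity)) t2 (by linarith)
            (by positivity)
      _ = R ^ 6 := by ring
  have e5 : p * (p + q) * q * (g2 ξ / 2) ≤ 5 / 9 := by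
    calc p * (p + q) * q * (g2 ξ / 2) ≤ p * (p + q) * q * (10 / 9 / R ^ 6 / 2) := by
          apply mul_le_mul_of_nonneg_left (by linarith)
          positivity
      _ ≤ R ^ 6 * (10 / 9 / R ^ 6 / 2) := mul_le_mul_of_nonneg_right e3 (by positivity)
      _ = 5 / 9 := by
          field_simp
          norm_num
  have e6 : 2 * (p + q) * (K / R ^ 15) ≤ 1 / 5 := by
    have e7 : K / R ^ 15 ≤ 1 / 10 / R ^ 2 := by
      rw [div_le_div_iff₀ (by positivity) (by positivity)]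
      have e8 : (1 : ℝ) ≤ R ^ 12 := one_le_pow₀ hR1
      have e9 : K ≤ 1 / 10 * R * R ^ 12 := by nlinarith
      calc K * R ^ 2 ≤ 1 / 10 * R * R ^ 12 * R ^ 2 := by
            exact mul_le_mul_of_nonneg_right e9 (by positivity)
        _ = 1 / 10 * R ^ 15 := by ring
    calc 2 * (p + q) * (K / R ^ 15) ≤ 2 * R ^ 2 * (1 / 10 / R ^ 2) := by
          apply mul_le_mul (by linarith) e7 (by positivity) (by positivity)
      _ = 1 / 5 := by
          field_simp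
          norm_num
  have := (abs_le.1 h3).2
  linarith

end Pool.Agent.H83.LC
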