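import Pool.Agent.H83.LC.CrvA

/-!
# [H83 LC CRV B] four points, labels
-/

namespace Pool.Agent.H83.LC

lemma v3_le {h x1 x2 x3 : ℝ} (h12 : x1 ≤ x2) (h23 : x2 ≤ x3) (hh : x3 - x1 ≤ h) : v3 x1 x2 x3 ≤ h ^ 3 := by
  unfold v3
  have h0 : 0 ≤ h := by linarith
  calc (x2 - x1) * (x3 - x1) * (x3 - x2) ≤ h * h * h := by
        apply mul_le_mul (mul_le_mul (by linarith) hh (by linarith) h0) (by linarith) (by linarith)
          (by positivity)
    _ = h ^ 3 := by ring

lemma v4_le {h x1 x2 x3 x4 : ℝ} (h12 : x1 ≤ x2) (h23 : x2 ≤ x3) (h34 : x3 ≤ x4) (hh : x4 - x1 ≤ h) :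
    v4 x1 x2 x3 x4 ≤ h ^ 6 := by
  unfold v4
  have h0 : 0 ≤ h := by linarith
  calc v3 x1 x2 x3 * ((x4 - x1) * (x4 - x2) * (x4 - x3)) ≤ h ^ 3 * (h * h * h) := by
        apply mul_le_mul (v3_le h12 h23 (by linarith))
        · apply mul_le_mul (mul_le_mul hh (by linarith) (by linarith) h0) (by linarith) (by linarith)
            (by positivity)
        · exact mul_nonneg (mul_nonneg (by linarith) (by linarith)) (by linarith)
        · positivity
    _ = h ^ 6 := by ring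

lemma v4_ge {g p q s : ℝ} (hg : 0 ≤ g) (hp : g ≤ p) (hq : g ≤ q) (hs : g ≤ s) {W : ℝ} (hW : 0 ≤ W) :
    g ^ 3 * W ≤ W * (p * q * s) := by
  have : g * g * g ≤ p * q * s := by
    apply mul_le_mul (mul_le_mul hp hq hg (by linarith)) hs hg
    exact mul_nonneg (by linarith) (by linarith)
  calc g ^ 3 * W = W * (g * g * g) := by ring
    _ ≤ W * (p * q * s) := mul_le_mul_of_nonneg_left this hW

theorem four {K R : ℝ} {Z : Finset ℕ} {r : ℕ → ℤ} (hK : 1 ≤ K) (hR : 10 * K ≤ R) (h : Near K R Z r)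
    {a b c d : ℕ} (ha : a ∈ Z) (hb : b ∈ Z) (hc : c ∈ Z) (hd : d ∈ Z) (hab : a < b) (hbc : b < c) (hcd : c < d)
    (hspan : (d : ℝ) - a ≤ R ^ 4) :
    (b : ℝ) - a ≤ 6 * K * R ^ 3 ∨ (c : ℝ) - b ≤ 6 * K * R ^ 3 ∨ (d : ℝ) - c ≤ 6 * K * R ^ 3 := by
  by_contra hcon
  push Not at hcon
  obtain ⟨c1, c2, c3⟩ := hcon
  have hR1 : 1 ≤ R := by linarith
  have hRp : 0 < R := by linarith
  have s1 : (a : ℝ) < b := by exact_mod_cast hab
  have s2 : (b : ℝ) < c := by exact_mod_cast hbc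
  have s3 : (c : ℝ) < d := by exact_mod_cast hcd
  obtain ⟨m1, m2⟩ := main4 hR1 (h.lo a ha).le s1 s2 s3 (h.hi d hd)
  have he := err4 s1.le s2.le s3.le (h.near a ha) (h.near b hb) (h.near c hc) (h.near d hd)
  obtain ⟨n, hn⟩ := int4 a b c d r
  rw [hn] at he
  set M : ℝ := d4 a b c d (cf a) (cf b) (cf c) (cf d) with hM
  set Sv : ℝ := v3 a b c + v3 a b d + v3 a c d + v3 b c d with hSv
  have w1 : v3 a b c ≤ (R ^ 4) ^ 3 := v3_le s1.le s2.le (by linarith)
  have w2 : v3 a b d ≤ (R ^ 4) ^ 3 := v3_le s1.le (by linarith) (by linarith)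
  have w3 : v3 a c d ≤ (R ^ 4) ^ 3 := v3_le (by linarith) s3.le (by linarith)
  have w4 : v3 b c d ≤ (R ^ 4) ^ 3 := v3_le s2.le s3.le (by linarith)
  have w5 : v4 a b c d ≤ (R ^ 4) ^ 6 := v4_le s1.le s2.le s3.le hspan
  have e1 : K / R ^ 15 * Sv ≤ 2 / 5 := by
    have e7 : K / R ^ 15 ≤ 1 / 10 / R ^ 12 := by
      rw [div_le_div_iff₀ (by positivity) (by positivity)]
      have e8 : (1 : ℝ) ≤ R ^ 2 := one_le_pow₀ hR1
      have e9 : K ≤ 1 / 10 * R * R ^ 2 := by nlinarith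
      calc K * R ^ 12 ≤ 1 / 10 * R * R ^ 2 * R ^ 12 := by
            exact mul_le_mul_of_nonneg_right e9 (by positivity)
        _ = 1 / 10 * R ^ 15 := by ring
    have e8 : Sv ≤ 4 * R ^ 12 := by
      have : (R ^ 4) ^ 3 = R ^ 12 := by ring
      rw [hSv]
      linarith
    calc K / R ^ 15 * Sv ≤ 1 / 10 / R ^ 12 * (4 * R ^ 12) := by
          apply mul_le_mul e7 e8 _ (by positivity)
          rw [hSv]
          have := v3_nonneg s1.le s2.le
          have := v3_nonneg s1.le (s2.trans s3).le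
          have := v3_nonneg (s1.trans s2).le s3.le
          have := v3_nonneg s2.le s3.le
          positivity
      _ = 2 / 5 := by
          field_simp
          norm_num
  have e2 : -M ≤ 5 / 81 := by
    refine m2.trans ?_
    calc v4 a b c d * (5 / 81) / R ^ 24 ≤ (R ^ 4) ^ 6 * (5 / 81) / R ^ 24 := by
          apply div_le_div_of_nonneg_right _ (by positivity)
          exact mul_le_mul_of_nonneg_right w5 (by norm_num)
      _ = 5 / 81 := by
          field_simp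
  -- positivity of `v4`
  have v1 := v3_nonneg s1.le s2.le
  have u1 : 0 < v3 (a : ℝ) b c := by
    unfold v3
    exact mul_pos (mul_pos (by linarith) (by linarith)) (by linarith)
  have u2 : 0 < v4 (a : ℝ) b c d := by
    unfold v4
    exact mul_pos u1 (mul_pos (mul_pos (by linarith) (by linarith)) (by linarith))
  have e3 : 0 < -M := lt_of_lt_of_le (by positivity) m1
  have e4 := abs_le.1 he
  have e5 : n = 0 := by
    have f1 : (n : ℝ) < 1 := by linarith [e4.2]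
    have f2 : (-1 : ℝ) < n := by linarith [e4.1]
    have f3 : n < 1 := by exact_mod_cast f1
    have f4 : -1 < n := by exact_mod_cast f2
    omega
  have e6 : v4 (a : ℝ) b c d / (42 * R ^ 24) ≤ K / R ^ 15 * Sv := by
    have f1 := e4.2
    rw [e5, Int.cast_zero] at f1
    linarith
  set g : ℝ := 6 * K * R ^ 3 with hg
  have hg0 : 0 < g := by positivity
  have t1 : g ^ 3 * v3 a b c ≤ v4 a b c d := by
    have := v4_ge hg0.le (by linarith : g ≤ (d : ℝ) - a) (by linarith : g ≤ (d : ℝ) - b) c3.le v1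
    exact this
  have t2 : g ^ 3 * v3 a b d ≤ v4 a b c d := by
    have := v4_ge hg0.le (by linarith : g ≤ (c : ℝ) - a) c2.le c3.le (v3_nonneg s1.le (s2.trans s3).le)
    have e : v3 (a : ℝ) b d * (((c : ℝ) - a) * (c - b) * (d - c)) = v4 a b c d := by
      unfold v4 v3
      ring
    rw [e] at this
    exact this
  have t3 : g ^ 3 * v3 a c d ≤ v4 a b c d := by
    have := v4_ge hg0.le c1.le c2.le (by linarith : g ≤ (d : ℝ) - b) (v3_nonneg (s1.trans s2).le s3.le)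
    have e : v3 (a : ℝ) c d * (((b : ℝ) - a) * (c - b) * (d - b)) = v4 a b c d := by
      unfold v4 v3
      ring
    rw [e] at this
    exact this
  have t4 : g ^ 3 * v3 b c d ≤ v4 a b c d := by
    have := v4_ge hg0.le c1.le (by linarith : g ≤ (c : ℝ) - a) (by linarith : g ≤ (d : ℝ) - a)
      (v3_nonneg s2.le s3.le)
    have e : v3 (b : ℝ) c d * (((b : ℝ) - a) * (c - a) * (d - a)) = v4 a b c d := by
      unfold v4 v3
      ring
    rw [e] at this
    exact this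
  have t5 : g ^ 3 * Sv ≤ 4 * v4 a b c d := by
    rw [hSv]
    linarith
  -- `g ^ 3 <= 168 K R ^ 9`
  have t6 : g ^ 3 * (v4 (a : ℝ) b c d / (42 * R ^ 24)) ≤ K / R ^ 15 * (4 * v4 a b c d) := by
    calc g ^ 3 * (v4 (a : ℝ) b c d / (42 * R ^ 24)) ≤ g ^ 3 * (K / R ^ 15 * Sv) :=
          mul_le_mul_of_nonneg_left e6 (by positivity)
      _ = K / R ^ 15 * (g ^ 3 * Sv) := by ring
      _ ≤ K / R ^ 15 * (4 * v4 a b c d) := mul_le_mul_of_nonneg_left t5 (by positivity)
  have t7 : g ^ 3 ≤ 168 * K * R ^ 9 := by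
    have f1 : g ^ 3 * (v4 (a : ℝ) b c d / (42 * R ^ 24)) = g ^ 3 / (42 * R ^ 24) * v4 a b c d := by ring
    have f2 : K / R ^ 15 * (4 * v4 a b c d) = 4 * K / R ^ 15 * v4 (a : ℝ) b c d := by ring
    rw [f1, f2] at t6
    have f3 := le_of_mul_le_mul_right t6 u2
    rw [div_le_div_iff₀ (by positivity) (by positivity)] at f3
    have f4 : g ^ 3 * R ^ 15 ≤ 168 * K * R ^ 9 * R ^ 15 := by
      calc g ^ 3 * R ^ 15 ≤ 4 * K * (42 * R ^ 24) := f3
        _ = 168 * K * R ^ 9 * R ^ 15 := by ring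
    exact le_of_mul_le_mul_right f4 (by positivity)
  have t8 : g ^ 3 = 216 * K ^ 3 * R ^ 9 := by
    rw [hg]
    ring
  rw [t8] at t7
  have t9 : K ≤ K ^ 3 := by
    nlinarith [mul_nonneg (sub_nonneg.2 hK) (sub_nonneg.2 hK), mul_nonneg (mul_nonneg (sub_nonneg.2 hK)
      (sub_nonneg.2 hK)) (sub_nonneg.2 hK)]
  have t10 : 216 * K * R ^ 9 ≤ 216 * K ^ 3 * R ^ 9 := by
    apply mul_le_mul_of_nonneg_right _ (by positivity)
    linarith
  have t11 : 0 < K * R ^ 9 := by positivity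
  linarith

/-- the label of a triple -/
def Lab (K R : ℝ) (u v : ℕ) (ξ : ℝ) : Prop :=
  R ^ 18 ≤ ξ ∧ ξ ≤ 2 * R ^ 18 ∧ |g2 ξ / 2 - (u : ℝ) / v| ≤ 4 * K / R ^ 19

theorem same {K R : ℝ} (hR : 1 ≤ R) {u v : ℕ} {x y : ℝ} (hx : Lab K R u v x) (hy : Lab K R u v y) :
    |x - y| ≤ 112 * K * R ^ 5 := by
  have key : ∀ x y : ℝ, Lab K R u v x → Lab K R u v y → x ≤ y → y - x ≤ 112 * K * R ^ 5 := by
    intro x y hx hy hxy
    obtain ⟨x1, x2, x3⟩ := hx
    obtain ⟨y1, y2, y3⟩ := hy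
    have h1 := g2_diff hR x1 hxy y2
    have h2 := (abs_le.1 x3).2
    have h3 := (abs_le.1 y3).1
    have h4 : (y - x) / (7 * R ^ 24) ≤ 16 * K / R ^ 19 := by
      have e : 16 * K / R ^ 19 = 4 * (4 * K / R ^ 19) := by ring
      rw [e]
      linarith
    have hRp : 0 < R := by linarith
    rw [div_le_div_iff₀ (by positivity) (by positivity)] at h4
    have h5 : (y - x) * R ^ 19 ≤ 112 * K * R ^ 5 * R ^ 19 := by
      calc (y - x) * R ^ 19 ≤ 16 * K * (7 * R ^ 24) := h4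
        _ = 112 * K * R ^ 5 * R ^ 19 := by ring
    exact le_of_mul_le_mul_right h5 (by positivity)
  rcases le_total x y with h | h
  · rw [abs_sub_comm, abs_of_nonneg (by linarith)]
    exact key x y hx hy h
  · rw [abs_of_nonneg (by linarith)]
    exact key y x hy hx h

theorem label {K R : ℝ} {Z : Finset ℕ} {r : ℕ → ℤ} (hK : 1 ≤ K) (hR : 10 * K ≤ R) (h : Near K R Z r)
    {a b c d e : ℕ} (ha : a ∈ Z) (hb : b ∈ Z) (hc : c ∈ Z) (hd : d ∈ Z) (he : e ∈ Z)
    (hab : a < b) (hbc : b < c) (hcd : c < d) (hde : d < e) (hspan : (e : ℝ) - a ≤ 6 * K * R ^ 3) :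
    ∃ (u v : ℕ) (ξ : ℝ), Lab K R u v ξ ∧ 1 ≤ u ∧ (u : ℝ) ≤ (6 * K * R ^ 3) ^ 3 / R ^ 6 ∧ 1 ≤ v ∧
      (v : ℝ) ≤ (6 * K * R ^ 3) ^ 3 ∧ (a : ℝ) ≤ ξ ∧ ξ ≤ e := by
  have hR1 : 1 ≤ R := by linarith
  have hRp : 0 < R := by linarith
  have hac : a < c := by omega
  have hce : c < e := by omega
  obtain ⟨ξ, h1, h2, h3⟩ := basic3 hK hR h ha hc he hac hce
  have hpos := pos3 hK hR h ha hc he hac hce
  have k1 := three hK hR h ha hb hc hab hbc
  have k2 := three hK hR h hc hd he hcd hde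
  have lo : R ^ 18 ≤ ξ := (h.lo a ha).le.trans h1.le
  have hi : ξ ≤ 2 * R ^ 18 := h2.le.trans (h.hi e he)
  obtain ⟨n, hn⟩ := int3 a c e r
  rw [hn] at h3 hpos
  have hn1 : 1 ≤ n := by exact_mod_cast hpos
  set p : ℝ := (c : ℝ) - a with hp
  set q : ℝ := (e : ℝ) - c with hq
  have e1 : (e : ℝ) - a = p + q := by rw [hp, hq]; ring
  have e2 : v3 a c e = p * (p + q) * q := by
    unfold v3
    rw [← hp, ← hq, e1]
  rw [e1, e2] at h3
  rw [e1] at hspan
  have hR2 : 1 ≤ R ^ 2 := one_le_pow₀ hR1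
  have hp1 : 1 ≤ p := by linarith
  have hq1 : 1 ≤ q := by linarith
  have hN : (n.toNat : ℝ) = n := by
    have : ((n.toNat : ℤ) : ℝ) = (n : ℝ) := by rw [Int.toNat_of_nonneg (by omega)]
    exact_mod_cast this
  have hv : (((c - a) * (e - a) * (e - c) : ℕ) : ℝ) = p * (p + q) * q := by
    rw [← e1, hp, hq]
    push_cast [Nat.cast_sub hac.le, Nat.cast_sub (hac.trans hce).le, Nat.cast_sub hce.le]
    ring
  have hvpos : 0 < p * (p + q) * q := by positivity
  refine ⟨n.toNat, (c - a) * (e - a) * (e - c), ξ, ⟨lo, hi, ?_⟩, ?_, ?_, ?_, ?_, h1.le, h2.le⟩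
  · rw [hN, hv]
    have f1 : g2 ξ / 2 - (n : ℝ) / (p * (p + q) * q) =
        -((n - p * (p + q) * q * (g2 ξ / 2)) / (p * (p + q) * q)) := by
      field_simp
      ring
    rw [f1, abs_neg, abs_div, abs_of_pos hvpos, div_le_iff₀ hvpos]
    refine h3.trans ?_
    have f2 : R ^ 2 * R ^ 2 ≤ p * q := mul_le_mul k1.le k2.le (by positivity) (by linarith)
    have f3 : 4 * K / R ^ 19 * (p * (p + q) * q) = 4 * (p + q) * (K / R ^ 15) * ((p * q) / (R ^ 2 * R ^ 2)) := by
      field_simp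
    have f4 : 1 ≤ (p * q) / (R ^ 2 * R ^ 2) := by
      rw [le_div_iff₀ (by positivity)]
      linarith
    rw [f3]
    have f5 : 0 ≤ (p + q) * (K / R ^ 15) := by positivity
    nlinarith [mul_le_mul_of_nonneg_left f4 f5]
  · omega
  · rw [hN]
    have f1 : p * (p + q) * q ≤ (6 * K * R ^ 3) ^ 3 := by
      calc p * (p + q) * q ≤ (6 * K * R ^ 3) * (6 * K * R ^ 3) * (6 * K * R ^ 3) := by
            apply mul_le_mul (mul_le_mul (by linarith) hspan (by linarith) (by positivity)) (by linarith)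
              (by linarith) (by positivity)
        _ = (6 * K * R ^ 3) ^ 3 := by ring
    have g1 := g2_hi hR1 lo
    have f2 : p * (p + q) * q * (g2 ξ / 2) ≤ (6 * K * R ^ 3) ^ 3 * (5 / 9 / R ^ 6) := by
      calc p * (p + q) * q * (g2 ξ / 2) ≤ p * (p + q) * q * (5 / 9 / R ^ 6) := by
            apply mul_le_mul_of_nonneg_left _ hvpos.le
            have : 10 / 9 / R ^ 6 = 2 * (5 / 9 / R ^ 6) := by ring
            linarith
        _ ≤ (6 * K * R ^ 3) ^ 3 * (5 / 9 / R ^ 6) := mul_le_mul_of_nonneg_right f1 (by positivity)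
    have f3 : 2 * (p + q) * (K / R ^ 15) ≤ (6 * K * R ^ 3) ^ 3 * (4 / 9 / R ^ 6) := by
      calc 2 * (p + q) * (K / R ^ 15) ≤ 2 * (6 * K * R ^ 3) * (K / R ^ 15) := by
            apply mul_le_mul_of_nonneg_right (by linarith) (by positivity)
        _ = 12 * K ^ 2 / R ^ 12 := by
            field_simp
            norm_num
        _ ≤ 96 * K ^ 3 * R ^ 3 := by
            rw [div_le_iff₀ (by positivity)]
            have t1 : (1 : ℝ) ≤ R ^ 15 := one_le_pow₀ hR1
            have t2 : K ^ 2 ≤ K ^ 3 := pow_le_pow_right₀ hK (by norm_num)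
            have t3 : 12 * K ^ 2 ≤ 96 * K ^ 3 := by
              have : 0 ≤ K ^ 3 := by positivity
              linarith
            calc 12 * K ^ 2 ≤ 96 * K ^ 3 * 1 := by linarith
              _ ≤ 96 * K ^ 3 * R ^ 15 := mul_le_mul_of_nonneg_left t1 (by positivity)
              _ = 96 * K ^ 3 * R ^ 3 * R ^ 12 := by ring
        _ = (6 * K * R ^ 3) ^ 3 * (4 / 9 / R ^ 6) := by
            field_simp
            norm_num
    have f4 := (abs_le.1 h3).2
    have f5 : (6 * K * R ^ 3) ^ 3 * (5 / 9 / R ^ 6) + (6 * K * R ^ 3) ^ 3 * (4 / 9 / R ^ 6) =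
        (6 * K * R ^ 3) ^ 3 / R ^ 6 := by ring
    linarith
  · have a1 : 0 < c - a := by omega
    have a2 : 0 < e - a := by omega
    have a3 : 0 < e - c := by omega
    exact Nat.mul_pos (Nat.mul_pos a1 a2) a3
  · rw [hv]
    calc p * (p + q) * q ≤ (6 * K * R ^ 3) * (6 * K * R ^ 3) * (6 * K * R ^ 3) := by
          apply mul_le_mul (mul_le_mul (by linarith) hspan (by linarith) (by positivity)) (by linarith)
            (by linarith) (by positivity)
      _ = (6 * K * R ^ 3) ^ 3 := by ring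

end Pool.Agent.H83.LC
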