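import Pool.Agent.H83.LC.CrvD

/-!
# [H83 LC CRV C1] bounds for the second derivative

`g2 x = 10/9 * x ^ (-1/3)`; `2 ^ (-1/3) > 0.79`, so `10/9 * 0.79 > 4/5`. `g2_diff`: mean value theorem,
`-g2' = 10/27 * x ^ (-4/3) >= 10/27 * (2 R ^ 18) ^ (-4/3) = 10/27 * 2 ^ (-4/3) / R ^ 24` and `2 ^ (-4/3) > 0.39`, `10/27 * 0.39 > 1/7`.
-/

namespace Pool.Agent.H83.LC

private theorem pow18_a {R : ℝ} (hR : 1 ≤ R) : (R ^ 18) ^ (-(1 / 3) : ℝ) = 1 / R ^ 6 := by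
  have h0 : 0 ≤ R := by linarith
  rw [← Real.rpow_natCast R 18, ← Real.rpow_mul h0]
  have : ((18 : ℕ) : ℝ) * (-(1 / 3)) = -((6 : ℕ) : ℝ) := by norm_num
  rw [this, Real.rpow_neg h0, Real.rpow_natCast, one_div]

private theorem pow18_b {R : ℝ} (hR : 1 ≤ R) : (R ^ 18) ^ (-(4 / 3) : ℝ) = 1 / R ^ 24 := by
  have h0 : 0 ≤ R := by linarith
  rw [← Real.rpow_natCast R 18, ← Real.rpow_mul h0]
  have : ((18 : ℕ) : ℝ) * (-(4 / 3)) = -((24 : ℕ) : ℝ) := by norm_num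
  rw [this, Real.rpow_neg h0, Real.rpow_natCast, one_div]

private theorem two_a : (79 / 100 : ℝ) ≤ 2 ^ (-(1 / 3) : ℝ) := by
  have h1 : (79 / 100 : ℝ) = ((79 / 100) ^ 3) ^ (1 / 3 : ℝ) := by
    rw [← Real.rpow_natCast (79 / 100 : ℝ) 3, ← Real.rpow_mul (by norm_num)]
    norm_num
  rw [h1, Real.rpow_neg (by norm_num), ← Real.inv_rpow (by norm_num)]
  exact Real.rpow_le_rpow (by norm_num) (by norm_num) (by norm_num)

private theorem two_b : (39 / 100 : ℝ) ≤ 2 ^ (-(4 / 3) : ℝ) := by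
  have h1 : (39 / 100 : ℝ) = ((39 / 100) ^ 3) ^ (1 / 3 : ℝ) := by
    rw [← Real.rpow_natCast (39 / 100 : ℝ) 3, ← Real.rpow_mul (by norm_num)]
    norm_num
  have h2 : (2 : ℝ) ^ (-(4 / 3) : ℝ) = (1 / 16) ^ (1 / 3 : ℝ) := by
    have : (1 / 16 : ℝ) = 2 ^ (-4 : ℝ) := by
      rw [Real.rpow_neg (by norm_num)]
      norm_num
    rw [this, ← Real.rpow_mul (by norm_num)]
    norm_num
  rw [h1, h2]
  exact Real.rpow_le_rpow (by norm_num) (by norm_num) (by norm_num)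

theorem g2_lo {R x : ℝ} (hR : 1 ≤ R) (h0 : R ^ 18 ≤ x) (h1 : x ≤ 2 * R ^ 18) : 4 / 5 / R ^ 6 ≤ g2 x := by
  have hRp : 0 < R := by linarith
  have hx : 0 < x := lt_of_lt_of_le (by positivity) h0
  have h2 : (2 * R ^ 18) ^ (-(1 / 3) : ℝ) ≤ x ^ (-(1 / 3) : ℝ) :=
    Real.rpow_le_rpow_of_nonpos hx h1 (by norm_num)
  rw [Real.mul_rpow (by norm_num) (by positivity), pow18_a hR] at h2
  unfold g2
  have h3 : (0 : ℝ) < 1 / R ^ 6 := by positivity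
  have h4 : (79 / 100 : ℝ) * (1 / R ^ 6) ≤ 2 ^ (-(1 / 3) : ℝ) * (1 / R ^ 6) :=
    mul_le_mul_of_nonneg_right two_a h3.le
  have h5 : 4 / 5 / R ^ 6 = 4 / 5 * (1 / R ^ 6) := by ring
  rw [h5]
  nlinarith

theorem g2_hi {R x : ℝ} (hR : 1 ≤ R) (h0 : R ^ 18 ≤ x) : g2 x ≤ 10 / 9 / R ^ 6 := by
  have hRp : 0 < R := by linarith
  have h2 : x ^ (-(1 / 3) : ℝ) ≤ (R ^ 18) ^ (-(1 / 3) : ℝ) :=
    Real.rpow_le_rpow_of_nonpos (by positivity) h0 (by norm_num)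
  rw [pow18_a hR] at h2
  unfold g2
  have h5 : 10 / 9 / R ^ 6 = 10 / 9 * (1 / R ^ 6) := by ring
  rw [h5]
  exact mul_le_mul_of_nonneg_left h2 (by norm_num)

theorem g2_diff {R x y : ℝ} (hR : 1 ≤ R) (h0 : R ^ 18 ≤ x) (hxy : x ≤ y) (h1 : y ≤ 2 * R ^ 18) :
    (y - x) / (7 * R ^ 24) ≤ g2 x - g2 y := by
  have hRp : 0 < R := by linarith
  have hx : 0 < x := lt_of_lt_of_le (by positivity) h0
  rcases hxy.eq_or_lt with rfl | hlt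
  · simp
  have hd : ∀ t : ℝ, 0 < t → HasDerivAt g2 (-(10 / 27) * t ^ (-(4 / 3) : ℝ)) t := by
    intro t ht
    have h2 := (Real.hasDerivAt_rpow_const (x := t) (p := (-(1 / 3) : ℝ)) (Or.inl ht.ne')).const_mul (10 / 9 : ℝ)
    have h3 : (10 / 9 : ℝ) * (-(1 / 3) * t ^ (-(1 / 3) - 1 : ℝ)) = -(10 / 27) * t ^ (-(4 / 3) : ℝ) := by
      have : (-(1 / 3) - 1 : ℝ) = -(4 / 3) := by norm_num
      rw [this]
      ring
    rw [h3] at h2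
    exact h2
  obtain ⟨c, hc, hc2⟩ := exists_hasDerivAt_eq_slope g2 (fun t => -(10 / 27) * t ^ (-(4 / 3) : ℝ)) hlt
    (fun t ht => (hd t (lt_of_lt_of_le hx ht.1)).continuousAt.continuousWithinAt)
    (fun t ht => hd t (hx.trans ht.1))
  have hcp : 0 < c := hx.trans hc.1
  have h2 : (2 * R ^ 18) ^ (-(4 / 3) : ℝ) ≤ c ^ (-(4 / 3) : ℝ) :=
    Real.rpow_le_rpow_of_nonpos hcp (hc.2.le.trans h1) (by norm_num)
  rw [Real.mul_rpow (by norm_num) (by positivity), pow18_b hR] at h2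
  have h3 : (0 : ℝ) < 1 / R ^ 24 := by positivity
  have h4 : (39 / 100 : ℝ) * (1 / R ^ 24) ≤ 2 ^ (-(4 / 3) : ℝ) * (1 / R ^ 24) :=
    mul_le_mul_of_nonneg_right two_b h3.le
  have hyx : 0 < y - x := by linarith
  have h5 : g2 x - g2 y = 10 / 27 * c ^ (-(4 / 3) : ℝ) * (y - x) := by
    have h6 : g2 y - g2 x = (-(10 / 27) * c ^ (-(4 / 3) : ℝ)) * (y - x) := by
      rw [hc2]
      field_simp
    linarith
  have h7 : 1 / 7 * (1 / R ^ 24) ≤ 10 / 27 * c ^ (-(4 / 3) : ℝ) := by nlinarith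
  have h8 : (y - x) / (7 * R ^ 24) = 1 / 7 * (1 / R ^ 24) * (y - x) := by
    field_simp
  rw [h5, h8]
  exact mul_le_mul_of_nonneg_right h7 hyx.le

end Pool.Agent.H83.LC
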