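import Mathlib

/-!
# [H83 LC CRV] MP_f9dba0_nt: integer points close to the curve y = x ^ (5/3). Definitions.
-/

namespace Pool.Agent.H83.LC

/-- determinant of three points -/
def d3 (x1 x2 x3 y1 y2 y3 : ℝ) : ℝ := (x2 - x1) * (y3 - y1) - (x3 - x1) * (y2 - y1)

/-- Vandermonde of three points -/
def v3 (x1 x2 x3 : ℝ) : ℝ := (x2 - x1) * (x3 - x1) * (x3 - x2)

/-- determinant of four points with rows `1, x, x ^ 2, y` -/
def d4 (x1 x2 x3 x4 y1 y2 y3 y4 : ℝ) : ℝ :=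
  y4 * v3 x1 x2 x3 - y3 * v3 x1 x2 x4 + y2 * v3 x1 x3 x4 - y1 * v3 x2 x3 x4

/-- Vandermonde of four points -/
def v4 (x1 x2 x3 x4 : ℝ) : ℝ := v3 x1 x2 x3 * ((x4 - x1) * (x4 - x2) * (x4 - x3))

/-- the curve -/
noncomputable def cf (x : ℝ) : ℝ := x ^ (5 / 3 : ℝ)

/-- its second derivative -/
noncomputable def g2 (x : ℝ) : ℝ := 10 / 9 * x ^ (-(1 / 3) : ℝ)

/-- `Z` is a set of abscissas in `(R ^ 18, 2 R ^ 18]` of integer points `(s, r s)` close to the curve -/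
structure Near (K R : ℝ) (Z : Finset ℕ) (r : ℕ → ℤ) : Prop where
  lo : ∀ s ∈ Z, R ^ 18 < (s : ℝ)
  hi : ∀ s ∈ Z, (s : ℝ) ≤ 2 * R ^ 18
  near : ∀ s ∈ Z, |(r s : ℝ) - cf s| ≤ K / R ^ 15

end Pool.Agent.H83.LC
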