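import Mathlib

/-!
# [H83 LC CRV W1] one window (pure combinatorics)

`chain`: with `z_0 < .. < z_(3m)` points of `T`, apply `h4` to `z_0, z_m, z_(2m), z_(3m)`. `rich`: `m = 4`. `card_le`: `m = (n - 1) / 3`;
in the chain two steps are longer than `R ^ 2`, so `(m / 2) * R ^ 2 <= 6 K R ^ 3`, `m <= 12 K R + 1`, `n <= 3 m + 3`.
-/

namespace Pool.Agent.H83.LC

theorem chain {R G : ℝ} {T : Finset ℕ} (hwin : ∀ a ∈ T, ∀ b ∈ T, (b : ℝ) - a ≤ R ^ 4)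
    (h4 : ∀ a ∈ T, ∀ b ∈ T, ∀ c ∈ T, ∀ d ∈ T, a < b → b < c → c < d → (d : ℝ) - a ≤ R ^ 4 →
      (b : ℝ) - a ≤ G ∨ (c : ℝ) - b ≤ G ∨ (d : ℝ) - c ≤ G)
    {m : ℕ} (hm : 1 ≤ m) (hcard : 3 * m + 1 ≤ T.card) :
    ∃ z : ℕ → ℕ, (∀ i, i ≤ m → z i ∈ T) ∧ (∀ i j, i < j → j ≤ m → z i < z j) ∧ (z m : ℝ) - z 0 ≤ G := by
  obtain ⟨Z, hZ⟩ : ∃ Z : ℕ → ℕ, ∀ i (h : i < T.card), Z i = T.orderEmbOfFin rfl ⟨i, h⟩ :=
    ⟨fun i => if h : i < T.card then T.orderEmbOfFin rfl ⟨i, h⟩ else 0, fun i h => by simp [h]⟩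
  have hmem : ∀ i, i ≤ 3 * m → Z i ∈ T := fun i hi => by
    rw [hZ i (by omega)]
    exact T.orderEmbOfFin_mem rfl _
  have hlt : ∀ i j, i < j → j ≤ 3 * m → Z i < Z j := fun i j hij hj => by
    rw [hZ i (by omega), hZ j (by omega)]
    exact (T.orderEmbOfFin rfl).strictMono (by simpa using hij)
  have key : ∀ s, s + m ≤ 3 * m → (Z (s + m) : ℝ) - Z s ≤ G →
      ∃ z : ℕ → ℕ, (∀ i, i ≤ m → z i ∈ T) ∧ (∀ i j, i < j → j ≤ m → z i < z j) ∧ (z m : ℝ) - z 0 ≤ G := by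
    intro s hs hG
    exact ⟨fun i => Z (s + i), fun i hi => hmem _ (by omega), fun i j hij hj => hlt _ _ (by omega) (by omega), by simpa using hG⟩
  rcases h4 (Z 0) (hmem 0 (by omega)) (Z m) (hmem m (by omega)) (Z (m + m)) (hmem _ (by omega)) (Z (m + m + m)) (hmem _ (by omega))
    (hlt _ _ (by omega) (by omega)) (hlt _ _ (by omega) (by omega)) (hlt _ _ (by omega) (by omega))
    (hwin _ (hmem 0 (by omega)) _ (hmem _ (by omega))) with h | h | h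
  · exact key 0 (by omega) (by simpa using h)
  · exact key m (by omega) h
  · exact key (m + m) (by omega) h

theorem rich {R G : ℝ} {T : Finset ℕ} (hwin : ∀ a ∈ T, ∀ b ∈ T, (b : ℝ) - a ≤ R ^ 4)
    (h4 : ∀ a ∈ T, ∀ b ∈ T, ∀ c ∈ T, ∀ d ∈ T, a < b → b < c → c < d → (d : ℝ) - a ≤ R ^ 4 →
      (b : ℝ) - a ≤ G ∨ (c : ℝ) - b ≤ G ∨ (d : ℝ) - c ≤ G) (hcard : 13 ≤ T.card) :
    ∃ a ∈ T, ∃ b ∈ T, ∃ c ∈ T, ∃ d ∈ T, ∃ e ∈ T, a < b ∧ b < c ∧ c < d ∧ d < e ∧ (e : ℝ) - a ≤ G := by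
  obtain ⟨z, h1, h2, h3⟩ := chain hwin h4 (m := 4) (by norm_num) (by omega)
  exact ⟨z 0, h1 0 (by norm_num), z 1, h1 1 (by norm_num), z 2, h1 2 (by norm_num), z 3, h1 3 (by norm_num), z 4,
    h1 4 (by norm_num), h2 0 1 (by norm_num) (by norm_num), h2 1 2 (by norm_num) (by norm_num),
    h2 2 3 (by norm_num) (by norm_num), h2 3 4 (by norm_num) (by norm_num), h3⟩

theorem card_le {K R : ℝ} (hK : 1 ≤ K) (hR : 1 ≤ R) {T : Finset ℕ} (hwin : ∀ a ∈ T, ∀ b ∈ T, (b : ℝ) - a ≤ R ^ 4)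
    (h3 : ∀ a ∈ T, ∀ b ∈ T, ∀ c ∈ T, a < b → b < c → R ^ 2 < (c : ℝ) - a)
    (h4 : ∀ a ∈ T, ∀ b ∈ T, ∀ c ∈ T, ∀ d ∈ T, a < b → b < c → c < d → (d : ℝ) - a ≤ R ^ 4 →
      (b : ℝ) - a ≤ 6 * K * R ^ 3 ∨ (c : ℝ) - b ≤ 6 * K * R ^ 3 ∨ (d : ℝ) - c ≤ 6 * K * R ^ 3) :
    (T.card : ℝ) ≤ 60 * K * R := by
  have hKR : 1 ≤ K * R := by nlinarith
  by_cases hc : T.card ≤ 3
  · have h1 : (T.card : ℝ) ≤ 3 := by exact_mod_cast hc
    nlinarith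
  · push Not at hc
    obtain ⟨m, hm⟩ : ∃ m, m = (T.card - 1) / 3 := ⟨_, rfl⟩
    obtain ⟨z, z1, z2, z3⟩ := chain hwin h4 (m := m) (by omega) (by omega)
    have hstep : ∀ j, 2 * j ≤ m → (j : ℝ) * R ^ 2 ≤ (z (2 * j) : ℝ) - z 0 := by
      intro j
      induction j with
      | zero => intro _; simp
      | succ j ih =>
        intro hj
        have e1 := ih (by omega)
        have e2 := h3 (z (2 * j)) (z1 _ (by omega)) (z (2 * j + 1)) (z1 _ (by omega)) (z (2 * j + 2)) (z1 _ (by omega))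
          (z2 _ _ (by omega) (by omega)) (z2 _ _ (by omega) (by omega))
        have e3 : 2 * (j + 1) = 2 * j + 2 := by ring
        rw [e3]
        push_cast
        nlinarith
    have hlast : (z (2 * (m / 2)) : ℝ) ≤ z m := by
      rcases (show 2 * (m / 2) = m ∨ 2 * (m / 2) < m by omega) with h | h
      · rw [h]
      · exact_mod_cast (z2 _ _ h le_rfl).le
    have h5 := hstep (m / 2) (by omega)
    have h6 : ((m / 2 : ℕ) : ℝ) * R ^ 2 ≤ 6 * K * R * R ^ 2 := by nlinarith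
    have h7 : ((m / 2 : ℕ) : ℝ) ≤ 6 * K * R := le_of_mul_le_mul_right h6 (by positivity)
    have h8 : T.card ≤ 6 * (m / 2) + 6 := by omega
    have h9 : (T.card : ℝ) ≤ 6 * ((m / 2 : ℕ) : ℝ) + 6 := by exact_mod_cast h8
    nlinarith

end Pool.Agent.H83.LC
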