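import Pool.Agent.H83.LC.Gap

/-!
A failure with a short gap forces a prime power of exponent at least five in the gap.
-/

namespace Pool.Agent.H83.LC

open Finset

/-- At most one member, whose square (cube) is below the bound. -/
lemma prod_pow_lt {A : Finset ℕ} {e B : ℕ} (hB : 1 < B)
    (h1 : ∀ q ∈ A, ∀ r ∈ A, q = r) (h2 : ∀ q ∈ A, q ^ e < B) : (∏ q ∈ A, q) ^ e < B := by
  rcases A.eq_empty_or_nonempty with h | ⟨a, ha⟩
  · rw [h, prod_empty, one_pow]
    exact hB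
  · have h3 : A = {a} := by
      ext q
      rw [mem_singleton]
      constructor
      · intro hq
        exact h1 q hq a ha
      · intro hq
        rw [hq]
        exact ha
    rw [h3, prod_singleton]
    exact h2 a ha

lemma exists_five {p p' : ℕ} (hp : 32 ≤ p) (hpp : p < p') (hp2 : p' ≤ 2 * p)
    (hcons : ∀ r, p < r → r < p' → ¬ r.Prime) (hgap : (p' - p) ^ 2 ≤ 16 * p)
    (hfail : p * Nat.lcmUpto p ≤ Nat.lcmUpto (p' - 1)) :
    ∃ q a : ℕ, q.Prime ∧ 5 ≤ a ∧ p < q ^ a ∧ q ^ a < p' := by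
  by_contra hcon
  push Not at hcon
  have hsmall : ∀ q ∈ S p (p' - 1), Nat.log q (p' - 1) ≤ 4 := by
    intro q hq
    by_contra h
    push Not at h
    obtain ⟨h1, h2, h3⟩ := pow_mem (by omega) hpp hcons hq
    have h4 := hcon q (Nat.log q (p' - 1)) (mem_S.1 hq).2.1 (by omega) h1
    omega
  have hodd : ∀ q ∈ S p (p' - 1), q ≠ 2 := by
    rintro q hq rfl
    obtain ⟨h1, h2, h3⟩ := pow_mem (by omega) hpp hcons hq
    have h4 : 2 ^ Nat.log 2 (p' - 1) ≤ 2 ^ 4 := Nat.pow_le_pow_right (by norm_num) (hsmall 2 hq)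
    omega
  have hcop : ∀ q ∈ S p (p' - 1), ∀ r ∈ S p (p' - 1), q ≠ r →
      Nat.gcd (Nat.log q (p' - 1)) (Nat.log r (p' - 1)) = 1 := by
    intro q hq r hr hqr
    obtain ⟨h1, h2, h3⟩ := pow_mem (by omega) hpp hcons hq
    obtain ⟨h4, h5, h6⟩ := pow_mem (by omega) hpp hcons hr
    exact coprime_exp hgap (mem_S.1 hq).2.1 (mem_S.1 hr).2.1 hqr (hodd q hq) (hodd r hr) h3 h6
      h1 h2 h4 h5
  -- split according to the parity of the exponent
  set A := (S p (p' - 1)).filter (fun q => Nat.log q (p' - 1) ≠ 3) with hA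
  set B := (S p (p' - 1)).filter (fun q => ¬ Nat.log q (p' - 1) ≠ 3) with hB
  have hprod : (∏ q ∈ A, q) * (∏ q ∈ B, q) = ∏ q ∈ S p (p' - 1), q :=
    prod_filter_mul_prod_filter_not _ _ _
  have hA2 : (∏ q ∈ A, q) ^ 2 < p' := by
    refine prod_pow_lt (by omega) ?_ ?_
    · intro q hq r hr
      rw [hA, mem_filter] at hq hr
      by_contra hqr
      have h1 := hcop q hq.1 r hr.1 hqr
      have h2 := hsmall q hq.1
      have h3 := hsmall r hr.1
      have h4 := (pow_mem (by omega) hpp hcons hq.1).2.2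
      have h5 := (pow_mem (by omega) hpp hcons hr.1).2.2
      have h6 := hq.2
      have h7 := hr.2
      generalize Nat.log q (p' - 1) = a at *
      generalize Nat.log r (p' - 1) = b at *
      interval_cases a <;> interval_cases b <;> simp at h1 h6 h7
    · intro q hq
      rw [hA, mem_filter] at hq
      obtain ⟨h1, h2, h3⟩ := pow_mem (by omega) hpp hcons hq.1
      exact lt_of_le_of_lt (Nat.pow_le_pow_right (mem_S.1 hq.1).2.1.pos h3) h2
  have hB3 : (∏ q ∈ B, q) ^ 3 < p' := by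
    refine prod_pow_lt (by omega) ?_ ?_
    · intro q hq r hr
      rw [hB, mem_filter, not_not] at hq hr
      by_contra hqr
      have h1 := hcop q hq.1 r hr.1 hqr
      rw [hq.2, hr.2] at h1
      norm_num at h1
    · intro q hq
      rw [hB, mem_filter, not_not] at hq
      obtain ⟨h1, h2, h3⟩ := pow_mem (by omega) hpp hcons hq.1
      rw [hq.2] at h2
      exact h2
  have hle : p ≤ ∏ q ∈ S p (p' - 1), q := by
    have h1 := hfail.trans (lcm_le (p := p) (m := p' - 1) (by omega))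
    have h2 := Nat.lcmUpto_pos p
    rw [mul_comm] at h1
    exact Nat.le_of_mul_le_mul_left h1 h2
  rw [← hprod] at hle
  generalize ∏ q ∈ A, q = x at *
  generalize ∏ q ∈ B, q = y at *
  -- p ^ 6 ≤ (x y) ^ 6 = (x ^ 2) ^ 3 (y ^ 3) ^ 2 < p' ^ 5 ≤ 32 p ^ 5
  have h1 : p ^ 6 ≤ (x * y) ^ 6 := Nat.pow_le_pow_left hle 6
  have h2 : (x * y) ^ 6 = (x ^ 2) ^ 3 * (y ^ 3) ^ 2 := by ring
  have h3 : (x ^ 2) ^ 3 < p' ^ 3 := Nat.pow_lt_pow_left hA2 (by norm_num)
  have h4 : (y ^ 3) ^ 2 < p' ^ 2 := Nat.pow_lt_pow_left hB3 (by norm_num)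
  have h5 : (x ^ 2) ^ 3 * (y ^ 3) ^ 2 < p' ^ 3 * p' ^ 2 := Nat.mul_lt_mul'' h3 h4
  have h6 : p' ^ 3 * p' ^ 2 ≤ (2 * p) ^ 5 := by
    calc p' ^ 3 * p' ^ 2 = p' ^ 5 := by ring
      _ ≤ (2 * p) ^ 5 := Nat.pow_le_pow_left hp2 5
  have h7 : (2 * p) ^ 5 ≤ p ^ 6 := by
    calc (2 * p) ^ 5 = 32 * p ^ 5 := by ring
      _ ≤ p * p ^ 5 := Nat.mul_le_mul_right _ hp
      _ = p ^ 6 := by ring
  omega

end Pool.Agent.H83.LC
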