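import Mathlib

/-!
Failures of `lcm (1, ..., p' - 1) < p * lcm (1, ..., p)` for consecutive primes `p < p'` with
`p' - p ≤ 4 √p`.
-/

namespace Pool.Agent.H83.LC

open Finset

/-- The primes which have a power in the gap. -/
def S (p m : ℕ) : Finset ℕ := (range (m + 1)).filter (fun q => q.Prime ∧ Nat.log q p < Nat.log q m)

lemma mem_S {p m q : ℕ} : q ∈ S p m ↔ q ≤ m ∧ q.Prime ∧ Nat.log q p < Nat.log q m := by
  unfold S
  rw [mem_filter, mem_range, Nat.lt_succ_iff]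

lemma lcm_le {p m : ℕ} (hm : m < 2 * p) :
    Nat.lcmUpto m ≤ Nat.lcmUpto p * ∏ q ∈ S p m, q := by
  have hprod : ∏ q ∈ S p m, q ≠ 0 := by
    rw [Finset.prod_ne_zero_iff]
    intro q hq
    exact (mem_S.1 hq).2.1.ne_zero
  have hne : Nat.lcmUpto p * ∏ q ∈ S p m, q ≠ 0 := mul_ne_zero (Nat.lcmUpto_ne_zero p) hprod
  refine Nat.le_of_dvd (Nat.pos_of_ne_zero hne) ?_
  rw [← Nat.factorization_prime_le_iff_dvd (Nat.lcmUpto_ne_zero m) hne]
  intro r hr
  rw [Nat.factorization_mul (Nat.lcmUpto_ne_zero p) hprod, Finsupp.add_apply,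
    Nat.factorization_lcmUpto m hr, Nat.factorization_lcmUpto p hr]
  by_cases hrS : r ∈ S p m
  · have h1 : 1 ≤ (∏ q ∈ S p m, q).factorization r := by
      have hd : r ∣ ∏ q ∈ S p m, q := dvd_prod_of_mem (fun q => q) hrS
      exact (hr.dvd_iff_one_le_factorization hprod).1 hd
    have h2 : Nat.log r m < Nat.log r p + 2 := by
      refine Nat.log_lt_of_lt_pow ?_ ?_
      · intro h
        have := (mem_S.1 hrS).2.2
        rw [h, Nat.log_zero_right] at this
        omega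
      · have h3 : p < r ^ (Nat.log r p + 1) := Nat.lt_pow_succ_log_self hr.one_lt p
        have h4 : 2 * p < r ^ (Nat.log r p + 2) := by
          rw [pow_succ _ (Nat.log r p + 1)]
          have := hr.two_le
          nlinarith
        omega
    omega
  · rw [mem_S] at hrS
    have h1 : Nat.log r m ≤ Nat.log r p := by
      by_contra hcon
      push Not at hcon
      by_cases hrm : r ≤ m
      · exact hrS ⟨hrm, hr, hcon⟩
      · have h0 : Nat.log r m = 0 := Nat.log_of_lt (by omega)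
        omega
    omega

/-- The data of a gap: `q ^ log_q m` lies in the gap and has exponent at least two. -/
lemma pow_mem {p p' q : ℕ} (hp : 2 ≤ p) (hpp : p < p') (hcons : ∀ r, p < r → r < p' → ¬ r.Prime)
    (hq : q ∈ S p (p' - 1)) :
    p < q ^ Nat.log q (p' - 1) ∧ q ^ Nat.log q (p' - 1) < p' ∧ 2 ≤ Nat.log q (p' - 1) := by
  obtain ⟨h1, h2, h3⟩ := mem_S.1 hq
  have h4 : p < q ^ Nat.log q (p' - 1) := Nat.lt_pow_of_log_lt h2.one_lt h3
  have h5 : q ^ Nat.log q (p' - 1) ≤ p' - 1 := Nat.pow_log_le_self q (by omega)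
  refine ⟨h4, by omega, ?_⟩
  by_contra hcon
  have h6 : Nat.log q (p' - 1) = 1 := by omega
  rw [h6, pow_one] at h4 h5
  exact hcons q h4 (by omega) h2

lemma bern_nat (N e : ℕ) : N ^ (e + 1) + 2 * (e + 1) * N ^ e ≤ (N + 2) ^ (e + 1) := by
  induction e with
  | zero => simp
  | succ e ih =>
    have h5 : (N + 2) ^ (e + 1 + 1) = (N + 2) * (N + 2) ^ (e + 1) := by ring
    rw [h5]
    have h6 := Nat.mul_le_mul_left (N + 2) ih
    have h7 : (N + 2) * (N ^ (e + 1) + 2 * (e + 1) * N ^ e) =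
        N ^ (e + 1 + 1) + 2 * (e + 1 + 1) * N ^ (e + 1) + 4 * (e + 1) * N ^ e := by ring
    omega

/-- Two odd prime powers in a short gap have coprime exponents. -/
lemma coprime_exp {p p' q r a b : ℕ} (hgap : (p' - p) ^ 2 ≤ 16 * p)
    (hq : q.Prime) (hr : r.Prime) (hqr : q ≠ r) (hq2 : q ≠ 2) (hr2 : r ≠ 2) (ha : 2 ≤ a) (_hb : 2 ≤ b)
    (ha1 : p < q ^ a) (ha2 : q ^ a < p') (hb1 : p < r ^ b) (hb2 : r ^ b < p') :
    Nat.gcd a b = 1 := by
  by_contra hd
  set d := Nat.gcd a b with hdef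
  have hd0 : 0 < d := Nat.gcd_pos_of_pos_left b (by omega)
  have hd2 : 2 ≤ d := by omega
  obtain ⟨a', ha'⟩ : d ∣ a := Nat.gcd_dvd_left a b
  obtain ⟨b', hb'⟩ : d ∣ b := Nat.gcd_dvd_right a b
  have ha'0 : a' ≠ 0 := by
    rintro rfl
    omega
  have hb'0 : b' ≠ 0 := by
    rintro rfl
    omega
  have eN : (q ^ a') ^ d = q ^ a := by rw [← pow_mul, ha', mul_comm]
  have eM : (r ^ b') ^ d = r ^ b := by rw [← pow_mul, hb', mul_comm]
  have hqo : Odd (q ^ a') := (hq.odd_of_ne_two hq2).pow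
  have hro : Odd (r ^ b') := (hr.odd_of_ne_two hr2).pow
  have hne : q ^ a' ≠ r ^ b' := by
    intro h
    have h1 : q ∣ r ^ b' := by
      rw [← h]
      exact dvd_pow_self q ha'0
    exact hqr ((Nat.prime_dvd_prime_iff_eq hq hr).1 (hq.dvd_of_dvd_pow h1))
  have key : ∀ N M : ℕ, Odd N → Odd M → N < M → p < N ^ d → M ^ d < p' → False := by
    intro N M hN hM hNM h1 h2
    obtain ⟨k, hk⟩ := hN
    obtain ⟨l, hl⟩ := hM
    have h3 : N + 2 ≤ M := by omega
    have h4 : N ^ d + 2 * d * N ^ (d - 1) ≤ (N + 2) ^ d := by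
      have h0 := bern_nat N (d - 1)
      rw [Nat.sub_add_cancel (by omega)] at h0
      exact h0
    have h5 : (N + 2) ^ d ≤ M ^ d := Nat.pow_le_pow_left h3 d
    have h6 : 4 * N ^ (d - 1) ≤ 2 * d * N ^ (d - 1) := Nat.mul_le_mul_right _ (by omega)
    have h7 : 4 * N ^ (d - 1) < p' - p := by omega
    have h8 : (4 * N ^ (d - 1)) ^ 2 < (p' - p) ^ 2 := Nat.pow_lt_pow_left h7 (by norm_num)
    have h9 : N ^ d ≤ (N ^ (d - 1)) ^ 2 := by
      rw [← pow_mul]
      refine Nat.pow_le_pow_right ?_ (by omega)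
      omega
    have h10 : (4 * N ^ (d - 1)) ^ 2 = 16 * (N ^ (d - 1)) ^ 2 := by ring
    omega
  rcases lt_or_gt_of_ne hne with h | h
  · exact key _ _ hqo hro h (by rw [eN]; exact ha1) (by rw [eM]; exact hb2)
  · exact key _ _ hro hqo h (by rw [eM]; exact hb1) (by rw [eN]; exact ha2)

end Pool.Agent.H83.LC
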